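import Pool.Agent.helper62.Brd.Count

/-!
# BRD-12: `kissR r` for `r` near one; the constant `cstar`
-/

set_option autoImplicit false

namespace Pool.Agent.helper62.Brd

open SimpleGraph Pool.Agent.helper79.Mst

theorem Compact1_set_eq : {n : ℕ | ∃ p : Fin n → E3, (∀ i, (1 : ℝ) ≤ ‖p i‖ ∧ ‖p i‖ ≤ 1) ∧
      ∀ i j, i ≠ j → (1 : ℝ) ≤ dist (p i) (p j)} =
    {n : ℕ | ∃ p : Fin n → E3, (∀ i, ‖p i‖ = 1) ∧ ∀ i j, i ≠ j → 1 ≤ dist (p i) (p j)} := by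
  ext n
  constructor
  · rintro ⟨p, h1, h2⟩
    exact ⟨p, fun i => le_antisymm (h1 i).2 (h1 i).1, h2⟩
  · rintro ⟨p, h1, h2⟩
    exact ⟨p, fun i => ⟨(h1 i).ge, (h1 i).le⟩, h2⟩

theorem Compact1_bdd : BddAbove {n : ℕ | ∃ p : Fin n → E3, (∀ i, ‖p i‖ = 1) ∧
    ∀ i j, i ≠ j → 1 ≤ dist (p i) (p j)} := by
  rw [← Compact1_set_eq]
  exact kissR_bdd one_pos

theorem Compact1_zero_mem : 0 ∈ {n : ℕ | ∃ p : Fin n → E3, (∀ i, ‖p i‖ = 1) ∧
    ∀ i j, i ≠ j → 1 ≤ dist (p i) (p j)} :=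
  ⟨fun i => i.elim0, fun i => i.elim0, fun i => i.elim0⟩

theorem kissR_one : kissR 1 = kiss := by
  unfold kissR kiss
  rw [Compact1_set_eq]

/-- Compactness for configurations of `n` points in the closed unit ball: if there are
configurations with `g k l (r) ≤ dist (z k) (z l)` for all `r < 1`... (general tool).
PROOF. The set of all `z : Fin n → E3` with `‖z k‖ ≤ 1` is compact (`isCompact_univ_pi`, or
`Metric.isCompact_of_isClosed_isBounded`, proper space); take a sequence `z_m` in the closed sets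
`F (1 / (m + 1))`, `F` antitone, a convergent subsequence and its limit; or use
`IsCompact.nonempty_iInter_of_directed_nonempty_isCompact_isClosed`. -/
theorem compact_tool {n : ℕ} (F : ℝ → Set (Fin n → E3)) (hF : ∀ δ, IsClosed (F δ))
    (hmono : ∀ δ δ', δ ≤ δ' → F δ ⊆ F δ') (hb : ∀ δ, ∀ z ∈ F δ, ∀ k, ‖z k‖ ≤ 1)
    (hne : ∀ δ, 0 < δ → (F δ).Nonempty) : (⋂ δ, ⋂ (_ : 0 < δ), F δ).Nonempty := by
  have hK : IsCompact (Set.univ.pi fun _ : Fin n => Metric.closedBall (0 : E3) 1) :=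
    isCompact_univ_pi (fun _ => isCompact_closedBall 0 1)
  have hsub : ∀ δ, F δ ⊆ Set.univ.pi fun _ : Fin n => Metric.closedBall (0 : E3) 1 := by
    intro δ z hz k _
    exact mem_closedBall_zero_iff.mpr (hb δ z hz k)
  haveI : Nonempty {δ : ℝ // 0 < δ} := ⟨⟨1, one_pos⟩⟩
  have h := IsCompact.nonempty_iInter_of_directed_nonempty_isCompact_isClosed
    (fun δ : {δ : ℝ // 0 < δ} => F δ.1)
    (fun a b => ⟨⟨min a.1 b.1, lt_min a.2 b.2⟩, hmono _ _ (min_le_left _ _),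
      hmono _ _ (min_le_right _ _)⟩)
    (fun a => hne a.1 a.2) (fun a => hK.of_isClosed_subset (hF a.1) (hsub a.1))
    (fun a => hF a.1)
  obtain ⟨z, hz⟩ := h
  rw [Set.mem_iInter] at hz
  refine ⟨z, ?_⟩
  rw [Set.mem_iInter₂]
  intro δ hδ
  exact hz ⟨δ, hδ⟩

/-- PROOF. `kissR` is antitone in `r > 0` and at least `kiss` for `r ≤ 1`. If `kissR r ≥ kiss + 1`
for all `r ∈ (0, 1)` then, by `compact_tool` with
`F δ = {p : Fin (kiss + 1) → E3 | norms in [1 - δ, 1], distances ≥ 1 - δ}`, there are `kiss + 1`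
points with norm `1` and mutual distances at least `1`, against the definition of `kiss`
(bounded by `kissR_bdd`). -/
theorem exists_kissR_eq : ∃ r : ℝ, 0 < r ∧ r < 1 ∧ kissR r = kiss := by
  by_contra hcon
  push Not at hcon
  have hge : ∀ r : ℝ, 0 < r → r < 1 → kiss + 1 ≤ kissR r := by
    intro r h0 h1
    have h2 : kiss ≤ kissR r := by
      unfold kiss kissR
      refine csSup_le_csSup (kissR_bdd h0) ⟨0, Compact1_zero_mem⟩ ?_
      rintro n ⟨p, hp1, hp2⟩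
      exact ⟨p, fun i => ⟨by rw [hp1 i]; exact h1.le, (hp1 i).le⟩,
        fun i j hij => h1.le.trans (hp2 i j hij)⟩
    have h3 := hcon r h0 h1
    omega
  have hC : ∀ k : Fin (kiss + 1), Continuous fun z : Fin (kiss + 1) → E3 => z k :=
    fun k => continuous_apply k
  have hcl : ∀ δ : ℝ, IsClosed {p : Fin (kiss + 1) → E3 | (∀ i, 1 - δ ≤ ‖p i‖ ∧ ‖p i‖ ≤ 1) ∧
      ∀ i j, i ≠ j → 1 - δ ≤ dist (p i) (p j)} := by
    intro δ
    have hset : {p : Fin (kiss + 1) → E3 | (∀ i, 1 - δ ≤ ‖p i‖ ∧ ‖p i‖ ≤ 1) ∧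
        ∀ i j, i ≠ j → 1 - δ ≤ dist (p i) (p j)}
        = (⋂ i, {p : Fin (kiss + 1) → E3 | 1 - δ ≤ ‖p i‖}) ∩
          (⋂ i, {p : Fin (kiss + 1) → E3 | ‖p i‖ ≤ 1}) ∩
          ⋂ i, ⋂ j, ⋂ (_ : i ≠ j), {p : Fin (kiss + 1) → E3 | 1 - δ ≤ dist (p i) (p j)} := by
      ext p
      simp only [Set.mem_setOf_eq, Set.mem_inter_iff, Set.mem_iInter]
      constructor
      · rintro ⟨h1, h2⟩
        exact ⟨⟨fun i => (h1 i).1, fun i => (h1 i).2⟩, h2⟩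
      · rintro ⟨⟨h1, h2⟩, h3⟩
        exact ⟨fun i => ⟨h1 i, h2 i⟩, h3⟩
    rw [hset]
    refine IsClosed.inter (IsClosed.inter ?_ ?_) ?_
    · exact isClosed_iInter fun i => isClosed_le continuous_const (hC i).norm
    · exact isClosed_iInter fun i => isClosed_le (hC i).norm continuous_const
    · exact isClosed_iInter fun i => isClosed_iInter fun j => isClosed_iInter fun _ =>
        isClosed_le continuous_const ((hC i).dist (hC j))
  have hmono : ∀ δ δ' : ℝ, δ ≤ δ' →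
      {p : Fin (kiss + 1) → E3 | (∀ i, 1 - δ ≤ ‖p i‖ ∧ ‖p i‖ ≤ 1) ∧
        ∀ i j, i ≠ j → 1 - δ ≤ dist (p i) (p j)} ⊆
      {p : Fin (kiss + 1) → E3 | (∀ i, 1 - δ' ≤ ‖p i‖ ∧ ‖p i‖ ≤ 1) ∧
        ∀ i j, i ≠ j → 1 - δ' ≤ dist (p i) (p j)} := by
    rintro δ δ' h p ⟨h1, h2⟩
    exact ⟨fun i => ⟨by linarith [(h1 i).1], (h1 i).2⟩,
      fun i j hij => by linarith [h2 i j hij]⟩
  have hbd : ∀ δ : ℝ, ∀ p ∈ {p : Fin (kiss + 1) → E3 | (∀ i, 1 - δ ≤ ‖p i‖ ∧ ‖p i‖ ≤ 1) ∧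
      ∀ i j, i ≠ j → 1 - δ ≤ dist (p i) (p j)}, ∀ k, ‖p k‖ ≤ 1 := by
    rintro δ p ⟨h1, _⟩ k
    exact (h1 k).2
  have hne : ∀ δ : ℝ, 0 < δ → {p : Fin (kiss + 1) → E3 | (∀ i, 1 - δ ≤ ‖p i‖ ∧ ‖p i‖ ≤ 1) ∧
      ∀ i j, i ≠ j → 1 - δ ≤ dist (p i) (p j)}.Nonempty := by
    intro δ hδ
    have hm1 : min δ (1 / 2) ≤ δ := min_le_left _ _
    have hm2 : min δ (1 / 2) ≤ 1 / 2 := min_le_right _ _
    have hm3 : 0 < min δ (1 / 2) := lt_min hδ (by norm_num)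
    have h0 : 0 < 1 - min δ (1 / 2) := by linarith
    have h1 : 1 - min δ (1 / 2) < 1 := by linarith
    obtain ⟨p, hp1, hp2⟩ := kissR_mem h0
    have hle := hge _ h0 h1
    refine ⟨fun i => p (Fin.castLE hle i), fun i => ⟨?_, (hp1 _).2⟩, fun i j hij => ?_⟩
    · linarith [(hp1 (Fin.castLE hle i)).1]
    · have hne : Fin.castLE hle i ≠ Fin.castLE hle j := fun h =>
        hij (Fin.castLE_injective hle h)
      linarith [hp2 _ _ hne]
  obtain ⟨z, hz⟩ := compact_tool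
    (fun δ => {p : Fin (kiss + 1) → E3 | (∀ i, 1 - δ ≤ ‖p i‖ ∧ ‖p i‖ ≤ 1) ∧
      ∀ i j, i ≠ j → 1 - δ ≤ dist (p i) (p j)}) hcl hmono hbd hne
  rw [Set.mem_iInter₂] at hz
  have h1 : ∀ i, 1 ≤ ‖z i‖ := by
    intro i
    refine le_of_forall_pos_le_add (fun δ hδ => ?_)
    have := ((hz δ hδ).1 i).1
    linarith
  have h2 : ∀ i j, i ≠ j → 1 ≤ dist (z i) (z j) := by
    intro i j hij
    refine le_of_forall_pos_le_add (fun δ hδ => ?_)
    have := (hz δ hδ).2 i j hij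
    linarith
  have h3 : kiss + 1 ≤ kiss := le_csSup Compact1_bdd
    ⟨z, fun i => le_antisymm ((hz 1 one_pos).1 i).2 (h1 i), h2⟩
  omega

/-- There is a configuration of `kiss` points. -/
theorem kiss_mem : ∃ p : Fin kiss → E3, (∀ i, ‖p i‖ = 1) ∧
    ∀ i j, i ≠ j → 1 ≤ dist (p i) (p j) :=
  Nat.sSup_mem ⟨0, Compact1_zero_mem⟩ Compact1_bdd

end Pool.Agent.helper62.Brd
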