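import Pool.Agent.helper62.Brd.Compact1

/-!
# BRD-13: the constant `cstar`
-/

set_option autoImplicit false

namespace Pool.Agent.helper62.Brd

open SimpleGraph Pool.Agent.helper79.Mst

theorem cstar_nonneg : 0 ≤ cstar := by
  apply Real.sSup_nonneg
  rintro t ⟨z, i, j, _, rfl⟩
  exact dist_nonneg

private theorem Compact2_bdd : BddAbove {t : ℝ | ∃ (z : Fin (kiss + 2) → E3)
    (i j : Fin (kiss + 2)), Cfg 1 z i j ∧ t = dist (z i) (z j)} := by
  refine ⟨2, ?_⟩
  rintro t ⟨z, i, j, h, rfl⟩
  have h1 := h.2.2.1 i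
  have h2 := h.2.2.1 j
  rw [dist_eq_norm]
  have h3 := norm_sub_le (z i) (z j)
  linarith

/-- The set in the definition of `cstar` is bounded (by `2`). -/
theorem dist_le_cstar {z : Fin (kiss + 2) → E3} {i j : Fin (kiss + 2)} (h : Cfg 1 z i j) :
    dist (z i) (z j) ≤ cstar :=
  le_csSup Compact2_bdd ⟨z, i, j, h, rfl⟩

private theorem Compact2_mono {r s : ℝ} (hrs : s ≤ r) {z : Fin (kiss + 2) → E3}
    {i j : Fin (kiss + 2)} (h : Cfg r z i j) : Cfg s z i j :=
  ⟨h.1, h.2.1, h.2.2.1, fun k l h1 h2 => hrs.trans (h.2.2.2 k l h1 h2)⟩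

private theorem Compact2_closed (r : ℝ) (i j : Fin (kiss + 2)) :
    IsClosed {z : Fin (kiss + 2) → E3 | Cfg r z i j} := by
  have e : {z : Fin (kiss + 2) → E3 | Cfg r z i j} =
      {z | i ≠ j} ∩ ({z | z 0 = 0} ∩ ((⋂ k, {z | ‖z k‖ ≤ 1}) ∩
        ⋂ k, ⋂ l, ⋂ (_ : k ≠ l), ⋂ (_ : s(k, l) ≠ s(i, j)),
          {z : Fin (kiss + 2) → E3 | r ≤ dist (z k) (z l)})) := by
    ext z
    simp only [Cfg, Set.mem_setOf_eq, Set.mem_inter_iff, Set.mem_iInter]
  rw [e]
  refine isClosed_const.inter ((isClosed_eq (continuous_apply 0) continuous_const).inter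
    ((isClosed_iInter fun k => isClosed_le (continuous_apply k).norm continuous_const).inter
      (isClosed_iInter fun k => isClosed_iInter fun l => isClosed_iInter fun _ =>
        isClosed_iInter fun _ => isClosed_le continuous_const
          ((continuous_apply k).dist (continuous_apply l)))))

/-- PROOF. By contradiction and `compact_tool`: for fixed `i`, `j` (finitely many pairs; for every
`δ` there is a pair, so some pair occurs for arbitrarily small, hence all, `δ > 0`) the sets
`F δ = {z | Cfg (1 - δ) z i j ∧ cstar + ε ≤ dist (z i) (z j)}` would have a common point `z`, which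
satisfies `Cfg 1 z i j` and `cstar + ε ≤ dist (z i) (z j)`, against `dist_le_cstar`. -/
theorem cfg_dist_lt {ε : ℝ} (hε : 0 < ε) : ∃ δ : ℝ, 0 < δ ∧ δ < 1 ∧
    ∀ (z : Fin (kiss + 2) → E3) (i j : Fin (kiss + 2)), Cfg (1 - δ) z i j →
      dist (z i) (z j) < cstar + ε := by
  have key : ∀ p : Fin (kiss + 2) × Fin (kiss + 2), ∃ δ : ℝ, 0 < δ ∧
      ∀ z : Fin (kiss + 2) → E3, Cfg (1 - δ) z p.1 p.2 → dist (z p.1) (z p.2) < cstar + ε := by
    rintro ⟨i, j⟩
    by_contra hcon
    push Not at hcon
    have hne := compact_tool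
      (fun δ => {z : Fin (kiss + 2) → E3 | Cfg (1 - δ) z i j} ∩
        {z | cstar + ε ≤ dist (z i) (z j)})
      (fun δ => (Compact2_closed (1 - δ) i j).inter (isClosed_le continuous_const
        ((continuous_apply i).dist (continuous_apply j))))
      (fun δ δ' h z hz => ⟨Compact2_mono (by linarith) hz.1, hz.2⟩)
      (fun δ z hz k => hz.1.2.2.1 k)
      (fun δ hδ => by
        obtain ⟨z, h1, h2⟩ := hcon δ hδ
        exact ⟨z, h1, h2⟩)
    obtain ⟨z, hz⟩ := hne
    simp only [Set.mem_iInter] at hz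
    have hc : Cfg 1 z i j := by
      have h1 := (hz 1 one_pos).1
      refine ⟨h1.1, h1.2.1, h1.2.2.1, fun k l hkl hs => ?_⟩
      refine le_of_forall_pos_le_add fun δ hδ => ?_
      have h2 := (hz δ hδ).1.2.2.2 k l hkl hs
      linarith
    have h3 := dist_le_cstar hc
    have h4 : cstar + ε ≤ dist (z i) (z j) := (hz 1 one_pos).2
    linarith
  choose δ hδ hF using key
  obtain ⟨p0, _, hp0⟩ := Finset.exists_min_image Finset.univ δ ⟨(0, 0), Finset.mem_univ _⟩
  refine ⟨min (δ p0) (1 / 2), lt_min (hδ p0) (by norm_num),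
    (min_le_right _ _).trans_lt (by norm_num), fun z i j h => ?_⟩
  have h1 : min (δ p0) (1 / 2) ≤ δ (i, j) := (min_le_left _ _).trans (hp0 (i, j) (Finset.mem_univ _))
  exact hF (i, j) z (Compact2_mono (by linarith) h)

/-- PROOF. Suppose not. By compactness of the set of all `z` with `Cfg 1 z i j` (`i`, `j` from a
finite set) the supremum is attained, or: for every `δ > 0` there are `z, i, j` with `Cfg 1 z i j` and
`1 - δ ≤ dist (z i) (z j)`; by `compact_tool` there is `z` with `z 0 = 0`, norms at most `1` and all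
mutual distances at least `1`; so the points `z k`, `k ≠ 0`, have norm `1` and are `kiss + 1` points
with mutual distances at least `1`, against the definition of `kiss`. -/
theorem cstar_lt_one : cstar < 1 := by
  by_contra hcon
  push Not at hcon
  have hSne : {t : ℝ | ∃ (z : Fin (kiss + 2) → E3)
      (i j : Fin (kiss + 2)), Cfg 1 z i j ∧ t = dist (z i) (z j)}.Nonempty := by
    by_contra h
    rw [Set.not_nonempty_iff_eq_empty] at h
    have h1 : cstar = 0 := by
      unfold cstar
      rw [h]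
      exact Real.sSup_empty
    linarith
  have hne := compact_tool
    (fun δ => {z : Fin (kiss + 2) → E3 | z 0 = 0} ∩ ((⋂ k, {z | ‖z k‖ ≤ 1}) ∩
      ⋂ k, ⋂ l, ⋂ (_ : k ≠ l), {z : Fin (kiss + 2) → E3 | 1 - δ ≤ dist (z k) (z l)}))
    (fun δ => (isClosed_eq (continuous_apply 0) continuous_const).inter
      ((isClosed_iInter fun k => isClosed_le (continuous_apply k).norm continuous_const).inter
        (isClosed_iInter fun k => isClosed_iInter fun l => isClosed_iInter fun _ =>
          isClosed_le continuous_const ((continuous_apply k).dist (continuous_apply l)))))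
    (fun δ δ' h z hz => by
      refine ⟨hz.1, hz.2.1, ?_⟩
      have h2 := hz.2.2
      simp only [Set.mem_iInter, Set.mem_setOf_eq] at h2 ⊢
      intro k l hkl
      have := h2 k l hkl
      linarith)
    (fun δ z hz k => by
      have h2 := hz.2.1
      simp only [Set.mem_iInter, Set.mem_setOf_eq] at h2
      exact h2 k)
    (fun δ hδ => by
      have h1 : 1 - δ < cstar := by linarith
      obtain ⟨t, ⟨z, i, j, hc, rfl⟩, ht⟩ := exists_lt_of_lt_csSup hSne h1
      refine ⟨z, hc.2.1, ?_, ?_⟩
      · simp only [Set.mem_iInter, Set.mem_setOf_eq]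
        exact hc.2.2.1
      · simp only [Set.mem_iInter, Set.mem_setOf_eq]
        intro k l hkl
        by_cases hs : s(k, l) = s(i, j)
        · have hd : dist (z k) (z l) = dist (z i) (z j) := by
            rcases Sym2.eq_iff.1 hs with ⟨rfl, rfl⟩ | ⟨rfl, rfl⟩
            · rfl
            · exact dist_comm _ _
          rw [hd]
          exact ht.le
        · have := hc.2.2.2 k l hkl hs
          linarith)
  obtain ⟨z, hz⟩ := hne
  simp only [Set.mem_iInter] at hz
  have hz0 : z 0 = 0 := (hz 1 one_pos).1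
  have hz1 : ∀ k, ‖z k‖ ≤ 1 := by
    have h2 := (hz 1 one_pos).2.1
    simp only [Set.mem_iInter, Set.mem_setOf_eq] at h2
    exact h2
  have hz2 : ∀ k l, k ≠ l → 1 ≤ dist (z k) (z l) := by
    intro k l hkl
    refine le_of_forall_pos_le_add fun δ hδ => ?_
    have h2 := (hz δ hδ).2.2
    simp only [Set.mem_iInter, Set.mem_setOf_eq] at h2
    have := h2 k l hkl
    linarith
  have hb : BddAbove {n : ℕ | ∃ p : Fin n → E3, (∀ i, ‖p i‖ = 1) ∧
      ∀ i j, i ≠ j → 1 ≤ dist (p i) (p j)} := by
    refine (kissR_bdd one_pos).mono ?_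
    rintro n ⟨p, h1, h2⟩
    exact ⟨p, fun i => ⟨(h1 i).ge, (h1 i).le⟩, h2⟩
  have hk : kiss + 1 ≤ kiss := by
    refine le_csSup hb ⟨fun i => z i.succ, fun i => ?_, fun i j hij => ?_⟩
    · apply le_antisymm (hz1 _)
      have h1 := hz2 i.succ 0 (Fin.succ_ne_zero i)
      rwa [hz0, dist_zero_right] at h1
    · exact hz2 _ _ (fun h => hij (Fin.succ_injective _ h))
  omega

end Pool.Agent.helper62.Brd
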