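import Pool.Agent.helper62.Brd.Mst

/-!
# BRD-11: the number of long edges
-/

set_option autoImplicit false

namespace Pool.Agent.helper62.Brd

open SimpleGraph Pool.Agent.helper79.Mst

/-- For `r > 0` the numbers `n` in the definition of `kissR r` are bounded. PROOF. The closed unit
ball is covered by finitely many balls of radius `r / 2` (`IsCompact.finite_cover_balls`), each of
which contains at most one of the points. -/
theorem kissR_bdd {r : ℝ} (hr : 0 < r) :
    BddAbove {n : ℕ | ∃ p : Fin n → E3, (∀ i, r ≤ ‖p i‖ ∧ ‖p i‖ ≤ 1) ∧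
      ∀ i j, i ≠ j → r ≤ dist (p i) (p j)} := by
  obtain ⟨t, -, htf, hcov⟩ := (isCompact_closedBall (0 : E3) 1).finite_cover_balls (half_pos hr)
  refine ⟨t.ncard, ?_⟩
  rintro n ⟨p, hp1, hp2⟩
  have hex : ∀ i : Fin n, ∃ y ∈ t, p i ∈ Metric.ball y (r / 2) := by
    intro i
    have h := hcov (show p i ∈ Metric.closedBall (0 : E3) 1 by
      rw [mem_closedBall_zero_iff]; exact (hp1 i).2)
    rw [Set.mem_iUnion₂] at h
    obtain ⟨y, hy, hb⟩ := h
    exact ⟨y, hy, hb⟩
  choose g hg hb using hex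
  have hinj : Function.Injective g := by
    intro i j hij
    by_contra hne
    have h1 := hb i
    have h2 := hb j
    rw [hij] at h1
    rw [Metric.mem_ball] at h1 h2
    have h3 := hp2 i j hne
    have h4 := dist_triangle_right (p i) (p j) (g j)
    linarith
  have := htf.to_subtype
  have h := Nat.card_le_card_of_injective (fun i : Fin n => (⟨g i, hg i⟩ : t))
    (fun i j hij => hinj (congrArg Subtype.val hij))
  rw [Nat.card_eq_fintype_card, Fintype.card_fin] at h
  exact h

/-- (with `kissR_bdd`; the finite set `A` in bijection with `Fin A.card`) -/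
theorem card_le_kissR {r : ℝ} (hr : 0 < r) {ι : Type} (A : Finset ι) (p : ι → E3)
    (h1 : ∀ i ∈ A, r ≤ ‖p i‖ ∧ ‖p i‖ ≤ 1) (h2 : ∀ i ∈ A, ∀ j ∈ A, i ≠ j → r ≤ dist (p i) (p j)) :
    A.card ≤ kissR r := by
  refine le_csSup (kissR_bdd hr) ⟨fun i => p (A.equivFin.symm i), fun i => h1 _ (Subtype.prop _),
    fun i j hij => h2 _ (Subtype.prop _) _ (Subtype.prop _) fun h => hij ?_⟩
  exact A.equivFin.symm.injective (Subtype.ext h)

/-- The number `kissR r` is attained (`Nat.sSup_mem`; the set contains `0`). -/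
theorem kissR_mem {r : ℝ} (hr : 0 < r) :
    ∃ p : Fin (kissR r) → E3, (∀ i, r ≤ ‖p i‖ ∧ ‖p i‖ ≤ 1) ∧
      ∀ i j, i ≠ j → r ≤ dist (p i) (p j) := by
  have h : kissR r ∈ {n : ℕ | ∃ p : Fin n → E3, (∀ i, r ≤ ‖p i‖ ∧ ‖p i‖ ≤ 1) ∧
      ∀ i j, i ≠ j → r ≤ dist (p i) (p j)} := by
    refine Nat.sSup_mem ⟨0, fun i => i.elim0, fun i => i.elim0, fun i => i.elim0⟩ (kissR_bdd hr)
  exact h

/-- The upper ends of edges of length at least `r` have distance at least `r` from each other and
from the centre. PROOF. Let `v = top T o e`, `v' = top T o f`, by symmetry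
`T.dist o v' ≤ T.dist o v`; `v ≠ v'` (`top_injOn`); by `top_sep` `v` and `v'` are not joined in
`T - e`, so `mst_cut'` gives `r ≤ edgeLen x e ≤ dist (x v) (x v')`. The same with `v' = o`
(`T.dist o o = 0`, `v ≠ o` since `T.dist o v = T.dist o w + 1`). -/
theorem tops_sep {V : Type} [Fintype V] {x : V → E3} {o : V} {T : SimpleGraph V}
    (hT : IsMST x T) {r : ℝ} {e f : Sym2 V} (he : e ∈ T.edgeSet) (hf : f ∈ T.edgeSet)
    (hne : e ≠ f) (hre : r ≤ edgeLen x e) (hrf : r ≤ edgeLen x f) :
    r ≤ dist (x (top T o e)) (x (top T o f)) := by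
  have key : ∀ e f : Sym2 V, e ∈ T.edgeSet → f ∈ T.edgeSet → e ≠ f → r ≤ edgeLen x e →
      T.dist o (top T o f) ≤ T.dist o (top T o e) → r ≤ dist (x (top T o e)) (x (top T o f)) := by
    intro e f he hf hne hre hd
    refine hre.trans (mst_cut' hT he (top_sep hT.1 o he ?_ hd))
    intro h
    exact hne (top_injOn hT.1 o he hf h.symm)
  rcases le_total (T.dist o (top T o f)) (T.dist o (top T o e)) with h | h
  · exact key e f he hf hne hre h
  · rw [_root_.dist_comm]
    exact key f e hf he hne.symm hrf h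

theorem top_sep_center {V : Type} [Fintype V] {x : V → E3} {o : V} {T : SimpleGraph V}
    (hT : IsMST x T) {e : Sym2 V} (he : e ∈ T.edgeSet) :
    edgeLen x e ≤ dist (x (top T o e)) (x o) := by
  obtain ⟨w, -, hw⟩ := top_spec hT.1 o he
  refine mst_cut' hT he (top_sep hT.1 o he ?_ ?_)
  · intro h
    rw [← h, SimpleGraph.dist_self] at hw
    omega
  · rw [SimpleGraph.dist_self]
    exact Nat.zero_le _

/-- PROOF. `card_le_kissR` with the points `x (top T o e)`. -/
theorem ncard_long_le {V : Type} [Fintype V] {x : V → E3} {o : V} (hx : InBall x o)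
    {T : SimpleGraph V} (hT : IsMST x T) {r : ℝ} (hr : 0 < r) :
    {e | e ∈ T.edgeSet ∧ r ≤ edgeLen x e}.ncard ≤ kissR r := by
  classical
  have hfin : {e | e ∈ T.edgeSet ∧ r ≤ edgeLen x e}.Finite := Set.toFinite _
  rw [Set.ncard_eq_toFinset_card _ hfin]
  refine card_le_kissR hr _ (fun e => x (top T o e)) ?_ ?_
  · intro e he
    rw [Set.Finite.mem_toFinset] at he
    have h := top_sep_center (o := o) hT he.1
    rw [hx.center, dist_zero_right] at h
    exact ⟨he.2.trans h, hx.ball _⟩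
  · intro e he f hf hne
    rw [Set.Finite.mem_toFinset] at he hf
    exact tops_sep hT he.1 hf.1 hne he.2 hf.2

end Pool.Agent.helper62.Brd
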