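import Pool.Agent.helper62.Brd.Compact1

/-!
# BRD-14: configurations with `kiss` edges of length almost one
-/

set_option autoImplicit false

namespace Pool.Agent.helper62.Brd

open SimpleGraph Pool.Agent.helper79.Mst

/-- An edge of the path from `a` to `b` separates `a` from `b`. -/
theorem Count2_path_sep {V : Type} [Fintype V] {T : SimpleGraph V} (hT : T.IsTree) {a b : V}
    (p : T.Walk a b) (hp : p.IsPath) {e : Sym2 V} (he : e ∈ p.edges) :
    ¬ (T.deleteEdges {e}).Reachable a b := by
  classical
  rintro ⟨q⟩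
  have hle : T.deleteEdges {e} ≤ T := T.deleteEdges_le _
  have hq : (q.bypass.mapLe hle).IsPath := q.bypass_isPath.mapLe hle
  have heq : (⟨p, hp⟩ : T.Path a b) = ⟨q.bypass.mapLe hle, hq⟩ := (hT.isAcyclic.subsingleton_path _ _).elim _ _
  have heq' : p = q.bypass.mapLe hle := congrArg Subtype.val heq
  rw [heq', Walk.edges_mapLe_eq_edges] at he
  have h1 := q.bypass.edges_subset_edgeSet he
  rw [edgeSet_deleteEdges] at h1
  exact h1.2 rfl

/-- The edges of `T` shorter than `r`. -/
def Count2_R {V : Type} (x : V → E3) (T : SimpleGraph V) (r : ℝ) : SimpleGraph V where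
  Adj a b := T.Adj a b ∧ dist (x a) (x b) < r
  symm := ⟨fun _ _ h => ⟨h.1.symm, by rw [_root_.dist_comm]; exact h.2⟩⟩
  loopless := ⟨fun _ h => T.loopless.irrefl _ h.1⟩

theorem Count2_edgeLen {V : Type} (x : V → E3) (a b : V) :
    edgeLen x s(a, b) = dist (x a) (x b) := rfl

theorem Count2_dist_ge {V : Type} [Fintype V] {x : V → E3} {T : SimpleGraph V} (hT : IsMST x T)
    {r : ℝ} {a b : V} (h : ¬ (Count2_R x T r).Reachable a b) : r ≤ dist (x a) (x b) := by
  classical
  obtain ⟨p, hp⟩ := (hT.1.existsUnique_path a b).exists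
  by_contra hlt
  push Not at hlt
  apply h
  have key : ∀ {c d : V} (q : T.Walk c d), (∀ e ∈ q.edges, edgeLen x e < r) →
      (Count2_R x T r).Reachable c d := by
    intro c d q
    induction q with
    | nil => intro _; exact Reachable.refl _
    | @cons u v _ h1 q ih =>
      intro hq
      refine Reachable.trans (Adj.reachable ?_) (ih fun e he => hq e (by simp [he]))
      exact ⟨h1, hq s(u, v) (by simp)⟩
  refine key p fun e he => ?_
  by_contra hge
  push Not at hge
  have h1 := Count2_path_sep hT.1 p hp he
  have h2 := mst_cut' hT (p.edges_subset_edgeSet he) h1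
  linarith

theorem Count2_not_reach {V : Type} [Fintype V] {x : V → E3} {o : V} {T : SimpleGraph V}
    (hT : IsMST x T) {r : ℝ} {e : Sym2 V} (he : e ∈ T.edgeSet) (hre : r ≤ edgeLen x e) {a : V}
    (ha : a ≠ top T o e) (hda : T.dist o a ≤ T.dist o (top T o e)) :
    ¬ (Count2_R x T r).Reachable (top T o e) a := by
  intro h
  refine top_sep hT.1 o he ha hda (h.mono ?_)
  intro c d hcd
  rw [deleteEdges_adj]
  refine ⟨hcd.1, fun hmem => ?_⟩
  rw [Set.mem_singleton_iff] at hmem
  rw [← hmem, Count2_edgeLen] at hre
  exact absurd hcd.2 (not_lt.2 hre)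

/-- If at least `kiss` edges of a minimum spanning tree have length at least `r`, and at least
`kiss + 1` edges have length at least `t`, `t ≤ r`, then there is a configuration `Cfg r z i j` with
`t ≤ dist (z i) (z j)`.

PROOF. Choose `kiss` edges `e_1, …, e_kiss` of length at least `r`, and one more edge `f` of length
at least `t`; `z 0 = x o = 0`, `z k = x (top T o e_k)` for `1 ≤ k ≤ kiss`, `z (kiss + 1) = x v` with
`v = top T o f`. By `tops_sep` and `top_sep_center` all mutual distances are at least `t`, and all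
mutual distances of `z 0, …, z kiss` are at least `r`. Let `R` be the graph on `V` with
`T.Adj a b ∧ dist (x a) (x b) < r` (edges of `T` shorter than `r`).
(1) If `a`, `b` are not joined in `R` then `dist (x a) (x b) ≥ r`: the path of `T` from `a` to `b`
contains an edge `g` with `edgeLen x g ≥ r`, `a` and `b` are not joined in `T - g` (uniqueness of
paths), use `mst_cut'`.
(2) Two different ones of the vertices `o`, `top T o e_k` are not joined in `R`: by `top_sep` they
are separated in `T - e_k` for some `k`, and `R ≤ T - e_k` because `edgeLen x e_k ≥ r`.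
So `v` is joined in `R` to at most one of them; let `j` be its index (any index if there is none) and
`i = kiss + 1`. For `k ≠ j`, `k ≤ kiss`, `v` is not joined to the vertex of `z k`, so
`dist (z i) (z k) ≥ r` by (1). -/
theorem exists_cfg {V : Type} [Fintype V] {x : V → E3} {o : V} (hx : InBall x o)
    {T : SimpleGraph V} (hT : IsMST x T) {r t : ℝ} (ht : t ≤ r)
    (h1 : kiss ≤ {e | e ∈ T.edgeSet ∧ r ≤ edgeLen x e}.ncard)
    (h2 : kiss + 1 ≤ {e | e ∈ T.edgeSet ∧ t ≤ edgeLen x e}.ncard) :
    ∃ (z : Fin (kiss + 2) → E3) (i j : Fin (kiss + 2)), Cfg r z i j ∧ t ≤ dist (z i) (z j) := by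
  classical
  -- the edges
  set Lr : Finset (Sym2 V) := (Set.toFinite {e | e ∈ T.edgeSet ∧ r ≤ edgeLen x e}).toFinset
    with hLr
  set Lt : Finset (Sym2 V) := (Set.toFinite {e | e ∈ T.edgeSet ∧ t ≤ edgeLen x e}).toFinset
    with hLt
  have hLrm : ∀ e, e ∈ Lr ↔ e ∈ T.edgeSet ∧ r ≤ edgeLen x e := fun e => by
    rw [hLr, Set.Finite.mem_toFinset]; rfl
  have hLtm : ∀ e, e ∈ Lt ↔ e ∈ T.edgeSet ∧ t ≤ edgeLen x e := fun e => by
    rw [hLt, Set.Finite.mem_toFinset]; rfl
  have h1' : kiss ≤ Lr.card := h1.trans (Set.ncard_eq_toFinset_card _ (Set.toFinite _)).le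
  have h2' : kiss + 1 ≤ Lt.card := h2.trans (Set.ncard_eq_toFinset_card _ (Set.toFinite _)).le
  obtain ⟨A, hA, hAcard⟩ := Finset.exists_subset_card_eq h1'
  have hf : ∃ f ∈ Lt, f ∉ A := by
    by_contra hcon
    push Not at hcon
    have h3 := Finset.card_le_card (s := Lt) (t := A) hcon
    omega
  obtain ⟨f, hfL, hfA⟩ := hf
  obtain ⟨hfT, hft⟩ := (hLtm f).1 hfL
  let E : Fin kiss → Sym2 V := fun k => (A.equivFinOfCardEq hAcard).symm k
  have hEA : ∀ k, E k ∈ A := fun k => ((A.equivFinOfCardEq hAcard).symm k).2
  have hET : ∀ k, E k ∈ T.edgeSet ∧ r ≤ edgeLen x (E k) := fun k => (hLrm _).1 (hA (hEA k))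
  have hEinj : Function.Injective E := fun k l h =>
    (A.equivFinOfCardEq hAcard).symm.injective (Subtype.ext h)
  have hEf : ∀ k, E k ≠ f := fun k h => hfA (h ▸ hEA k)
  have hposi : ∀ e ∈ T.edgeSet, T.dist o (top T o e) ≠ 0 := fun e he => by
    obtain ⟨w, _, h⟩ := top_spec hT.1 o he
    omega
  -- the vertices
  let w : Fin (kiss + 1) → V := Fin.cons o fun k => top T o (E k)
  have hw0 : w 0 = o := rfl
  have hws : ∀ k : Fin kiss, w k.succ = top T o (E k) := fun k => rfl
  have hsep : ∀ k l : Fin (kiss + 1), k ≠ l → ¬ (Count2_R x T r).Reachable (w k) (w l) := by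
    have hs : ∀ (k : Fin kiss) (l : Fin (kiss + 1)), k.succ ≠ l →
        T.dist o (w l) ≤ T.dist o (w k.succ) →
        ¬ (Count2_R x T r).Reachable (w k.succ) (w l) := by
      intro k l hkl hd
      rw [hws] at hd ⊢
      refine Count2_not_reach hT (hET k).1 (hET k).2 ?_ hd
      intro heq
      induction l using Fin.cases with
      | zero =>
        rw [hw0] at heq
        apply hposi _ (hET k).1
        rw [← heq, SimpleGraph.dist_self]
      | succ l =>
        rw [hws] at heq
        exact hkl (congrArg Fin.succ (hEinj (top_injOn hT.1 o (hET l).1 (hET k).1 heq)).symm)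
    have h0 : ∀ k : Fin kiss, T.dist o (w 0) ≤ T.dist o (w k.succ) := fun k => by
      rw [hw0, SimpleGraph.dist_self]
      exact Nat.zero_le _
    intro k l hkl
    induction k using Fin.cases with
    | zero =>
      induction l using Fin.cases with
      | zero => exact absurd rfl hkl
      | succ l => exact fun h => hs l 0 (Fin.succ_ne_zero l) (h0 l) h.symm
    | succ k =>
      induction l using Fin.cases with
      | zero => exact hs k 0 (Fin.succ_ne_zero k) (h0 k)
      | succ l =>
        rcases le_total (T.dist o (w l.succ)) (T.dist o (w k.succ)) with h | h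
        · exact hs k l.succ hkl h
        · exact fun h' => hs l k.succ (Ne.symm hkl) h h'.symm
  set v : V := top T o f with hv
  -- the exceptional index
  obtain ⟨j, hj⟩ : ∃ j : Fin (kiss + 1), ∀ k, k ≠ j → ¬ (Count2_R x T r).Reachable v (w k) := by
    by_cases hex : ∃ j : Fin (kiss + 1), (Count2_R x T r).Reachable v (w j)
    · obtain ⟨j, hj⟩ := hex
      exact ⟨j, fun k hk h => hsep k j hk (h.symm.trans hj)⟩
    · push Not at hex
      exact ⟨0, fun k _ => hex k⟩
  -- distances at least `t`
  have htv : ∀ k, t ≤ dist (x v) (x (w k)) := by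
    intro k
    induction k using Fin.cases with
    | zero =>
      rw [hw0]
      exact hft.trans (top_sep_center hT hfT)
    | succ k =>
      rw [hws]
      exact tops_sep hT hfT (hET k).1 (hEf k).symm hft (ht.trans (hET k).2)
  refine ⟨Fin.snoc (α := fun _ => E3) (fun k => x (w k)) (x v), Fin.last (kiss + 1),
    j.castSucc, ⟨(Fin.castSucc_lt_last j).ne', ?_, ?_, ?_⟩, ?_⟩
  · have : (0 : Fin (kiss + 2)) = (0 : Fin (kiss + 1)).castSucc := rfl
    rw [this, Fin.snoc_castSucc, hw0, hx.center]
  · intro k
    induction k using Fin.lastCases with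
    | last => rw [Fin.snoc_last]; exact hx.ball v
    | cast k => rw [Fin.snoc_castSucc]; exact hx.ball _
  · intro k l hkl hne
    induction k using Fin.lastCases with
    | last =>
      induction l using Fin.lastCases with
      | last => exact absurd rfl hkl
      | cast l =>
        rw [Fin.snoc_last, Fin.snoc_castSucc]
        refine Count2_dist_ge hT (hj l ?_)
        rintro rfl
        exact hne rfl
    | cast k =>
      induction l using Fin.lastCases with
      | last =>
        rw [Fin.snoc_last, Fin.snoc_castSucc, _root_.dist_comm]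
        refine Count2_dist_ge hT (hj k ?_)
        rintro rfl
        exact hne Sym2.eq_swap
      | cast l =>
        rw [Fin.snoc_castSucc, Fin.snoc_castSucc]
        exact Count2_dist_ge hT (hsep k l fun h => hkl (congrArg Fin.castSucc h))
  · rw [Fin.snoc_last, Fin.snoc_castSucc]
    exact htv j

end Pool.Agent.helper62.Brd
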