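import Pool.Agent.helper79.MstTree

/-!
# Broadcasting in three dimensions: definitions for the asymptotics of `ρ_3`

`rho3`, `energy`, `opt`, `IsMST`, `edgeLen` are those of `Pool.Agent.helper79.Mst`.
-/

set_option autoImplicit false

namespace Pool.Agent.helper62.Brd

open Pool.Agent.helper79.Mst

/-- The sum of the `α`-th powers of the edge lengths of `T`. -/
noncomputable def sumPow {V : Type} (α : ℝ) (x : V → E3) (T : SimpleGraph V) : ℝ :=
  ∑ᶠ e ∈ T.edgeSet, edgeLen x e ^ α

/-- `x` is a family of different points of the closed unit ball, and `x o` is the centre. -/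
structure InBall {V : Type} (x : V → E3) (o : V) : Prop where
  inj : Function.Injective x
  center : x o = 0
  ball : ∀ v, ‖x v‖ ≤ 1

/-- The supremum of the sum of the `α`-th powers of the edge lengths of a minimum spanning tree,
over all finite subsets of the closed unit ball which contain the centre. -/
noncomputable def sigma (α : ℝ) : EReal :=
  sSup {r : EReal | ∃ (V : Type) (_ : Fintype V) (x : V → E3) (o : V) (T : SimpleGraph V),
    InBall x o ∧ IsMST x T ∧ r = ((sumPow α x T : ℝ) : EReal)}

/-- The largest number of points with norms in `[r, 1]` and mutual distances at least `r`. -/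
noncomputable def kissR (r : ℝ) : ℕ :=
  sSup {n : ℕ | ∃ p : Fin n → E3, (∀ i, r ≤ ‖p i‖ ∧ ‖p i‖ ≤ 1) ∧
    ∀ i j, i ≠ j → r ≤ dist (p i) (p j)}

/-- The kissing number of three-dimensional space: the largest number of points of the unit
sphere with mutual distances at least `1`. -/
noncomputable def kiss : ℕ :=
  sSup {n : ℕ | ∃ p : Fin n → E3, (∀ i, ‖p i‖ = 1) ∧ ∀ i j, i ≠ j → 1 ≤ dist (p i) (p j)}

/-- `z` consists of `kiss + 2` points of the closed unit ball, the first one is the centre, and
all mutual distances, except perhaps the distance of `z i` and `z j`, are at least `r`. -/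
def Cfg (r : ℝ) (z : Fin (kiss + 2) → E3) (i j : Fin (kiss + 2)) : Prop :=
  i ≠ j ∧ z 0 = 0 ∧ (∀ k, ‖z k‖ ≤ 1) ∧ ∀ k l, k ≠ l → s(k, l) ≠ s(i, j) → r ≤ dist (z k) (z l)

/-- The supremum of the exceptional distance over all sets of `kiss + 2` points of the closed unit
ball which contain the centre and have all other mutual distances at least `1` (`0` if there are
no such sets). -/
noncomputable def cstar : ℝ :=
  sSup {t : ℝ | ∃ (z : Fin (kiss + 2) → E3) (i j : Fin (kiss + 2)), Cfg 1 z i j ∧
    t = dist (z i) (z j)}

end Pool.Agent.helper62.Brd
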