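import Pool.Agent.helper62.Brd.Mst

/-!
# BRD-10: the sum of the cubes of the edge lengths
-/

set_option autoImplicit false

namespace Pool.Agent.helper62.Brd

open SimpleGraph Pool.Agent.helper79.Mst MeasureTheory

/-- The midpoint of an edge. -/
noncomputable def mid {V : Type} (x : V → E3) (e : Sym2 V) : E3 :=
  Sym2.lift ⟨fun u v => (1 / 2 : ℝ) • (x u + x v), fun u v => congrArg _ (add_comm (x u) (x v))⟩ e

/-- PROOF. One end of `e` is not joined to `o` in `T - e`. -/
theorem edge_le_one {V : Type} [Fintype V] {x : V → E3} {o : V} (hx : InBall x o)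
    {T : SimpleGraph V} (hT : IsMST x T) {e : Sym2 V} (he : e ∈ T.edgeSet) : edgeLen x e ≤ 1 := by
  have key : ∀ u : V, ¬ (T.deleteEdges {e}).Reachable u o → edgeLen x e ≤ 1 := by
    intro u hu
    have h1 := mst_cut' hT he hu
    rw [hx.center, dist_zero_right] at h1
    exact h1.trans (hx.ball u)
  induction e using Sym2.ind with
  | _ u v =>
    have huv : T.Adj u v := he
    by_cases h : (T.deleteEdges {s(u, v)}).Reachable u o
    · refine key v fun h' => not_reach hT.1 huv (h.trans h'.symm)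
    · exact key u h

/-- (parallelogram law) -/
theorem mid_identity (a b c d : E3) :
    4 * ‖(1 / 2 : ℝ) • (a + b) - (1 / 2 : ℝ) • (c + d)‖ ^ 2 =
      dist a c ^ 2 + dist a d ^ 2 + dist b c ^ 2 + dist b d ^ 2 - dist a b ^ 2 - dist c d ^ 2 := by
  simp only [dist_eq_norm, EuclideanSpace.norm_sq_eq, Fin.sum_univ_three, Real.norm_eq_abs, sq_abs,
    PiLp.sub_apply, PiLp.add_apply, PiLp.smul_apply, smul_eq_mul]
  ring

/-- PROOF. Write `e = ab`, `f = cd` as in `edge_pair`. By `mst_cut'`: `|ac| ≥ |ab|`,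
`|ad| ≥ |ab|`, `|ad| ≥ |cd|`, `|bd| ≥ |cd|`. So by `mid_identity`
`4 * dist (mid e) (mid f) ^ 2 ≥ |ad|^2 + |bc|^2 ≥ max(|ab|, |cd|)^2`, hence
`dist ≥ max / 2 ≥ (|ab| + |cd|) / 4`. -/
theorem mid_dist {V : Type} [Fintype V] {x : V → E3} {T : SimpleGraph V} (hT : IsMST x T)
    {e f : Sym2 V} (he : e ∈ T.edgeSet) (hf : f ∈ T.edgeSet) (hne : e ≠ f) :
    (edgeLen x e + edgeLen x f) / 4 ≤ dist (mid x e) (mid x f) := by
  obtain ⟨a, b, c, d, rfl, rfl, h1, h2, h3, h4⟩ := edge_pair hT.1 he hf hne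
  have g1 := mst_cut' hT he h1
  have g2 := mst_cut' hT he h2
  have g3 := mst_cut' hT hf h3
  have g4 := mst_cut' hT hf h4
  have e1 : edgeLen x s(a, b) = dist (x a) (x b) := rfl
  have e2 : edgeLen x s(c, d) = dist (x c) (x d) := rfl
  have e3 : dist (mid x s(a, b)) (mid x s(c, d)) =
      ‖(1 / 2 : ℝ) • (x a + x b) - (1 / 2 : ℝ) • (x c + x d)‖ := dist_eq_norm _ _
  rw [e1] at g1 g2
  rw [e2] at g3 g4
  rw [e1, e2, e3]
  have hm := mid_identity (x a) (x b) (x c) (x d)
  set D := ‖(1 / 2 : ℝ) • (x a + x b) - (1 / 2 : ℝ) • (x c + x d)‖ with hD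
  have hD0 : 0 ≤ D := norm_nonneg _
  have n1 : 0 ≤ dist (x a) (x b) := dist_nonneg
  have n2 : 0 ≤ dist (x c) (x d) := dist_nonneg
  have n3 : 0 ≤ dist (x a) (x d) := dist_nonneg
  have n4 : 0 ≤ dist (x b) (x c) ^ 2 := sq_nonneg _
  have s1 : dist (x a) (x b) ^ 2 ≤ dist (x a) (x c) ^ 2 := pow_le_pow_left₀ n1 g1 2
  have s2 : dist (x c) (x d) ^ 2 ≤ dist (x b) (x d) ^ 2 := pow_le_pow_left₀ n2 g4 2
  have s3 : dist (x a) (x d) ^ 2 ≤ (2 * D) ^ 2 := by nlinarith
  have s4 : dist (x a) (x d) ≤ 2 * D := by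
    exact (pow_le_pow_iff_left₀ n3 (by positivity) two_ne_zero).mp s3
  linarith

/-- PROOF. The open balls of radius `edgeLen x e / 4` about the midpoints are pairwise disjoint
(`mid_dist`) and contained in the ball of radius `5 / 4` about `0` (the midpoint has norm at most
`1`, `edge_le_one`). Compare volumes (`Measure.addHaar_ball`, `finrank = 3`). -/
theorem cubes_le {V : Type} [Fintype V] {x : V → E3} {o : V} (hx : InBall x o)
    {T : SimpleGraph V} (hT : IsMST x T) : ∑ᶠ e ∈ T.edgeSet, edgeLen x e ^ (3 : ℝ) ≤ 125 := by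
  classical
  rw [finsum_mem_eq_finite_toFinset_sum _ (Set.toFinite T.edgeSet)]
  set F := (Set.toFinite T.edgeSet).toFinset with hF
  have hmem : ∀ e, e ∈ F ↔ e ∈ T.edgeSet := fun e => Set.Finite.mem_toFinset _
  have h0 : ∀ e : Sym2 V, 0 ≤ edgeLen x e := by
    intro e
    induction e using Sym2.ind with
    | _ u v => exact dist_nonneg (x := x u) (y := x v)
  have hsub : (⋃ e ∈ F, Metric.ball (mid x e) (edgeLen x e / 4)) ⊆
      Metric.ball (0 : E3) (5 / 4) := by
    intro y hy
    simp only [Set.mem_iUnion] at hy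
    obtain ⟨e, he, hy⟩ := hy
    rw [Metric.mem_ball] at hy ⊢
    have h1 := edge_le_one hx hT ((hmem e).mp he)
    have h2 : ‖mid x e‖ ≤ 1 := by
      induction e using Sym2.ind with
      | _ u v =>
        show ‖(1 / 2 : ℝ) • (x u + x v)‖ ≤ 1
        rw [norm_smul]
        have h3 := norm_add_le (x u) (x v)
        have h4 := hx.ball u
        have h5 := hx.ball v
        rw [Real.norm_of_nonneg (by norm_num)]
        linarith
    have h3 : dist y 0 ≤ dist y (mid x e) + dist (mid x e) 0 := dist_triangle _ _ _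
    rw [dist_zero_right (mid x e)] at h3
    linarith
  have hdisj : (F : Set (Sym2 V)).PairwiseDisjoint
      fun e => Metric.ball (mid x e) (edgeLen x e / 4) := by
    intro e he f hf hne
    apply Metric.ball_disjoint_ball
    have := mid_dist hT ((hmem e).mp he) ((hmem f).mp hf) hne
    linarith
  have hvol := measure_mono (μ := (volume : Measure E3)) hsub
  rw [measure_biUnion_finset hdisj (fun _ _ => Metric.isOpen_ball.measurableSet)] at hvol
  have hb : ∀ e ∈ F, volume (Metric.ball (mid x e) (edgeLen x e / 4)) =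
      ENNReal.ofReal ((edgeLen x e / 4) ^ 3) * volume (Metric.ball (0 : E3) 1) := by
    intro e _
    have := Measure.addHaar_ball (volume : Measure E3) (mid x e) (r := edgeLen x e / 4)
      (by have := h0 e; positivity)
    rw [this, finrank_euclideanSpace_fin]
  have hB : volume (Metric.ball (0 : E3) (5 / 4)) =
      ENNReal.ofReal ((5 / 4) ^ 3) * volume (Metric.ball (0 : E3) 1) := by
    have := Measure.addHaar_ball (volume : Measure E3) (0 : E3) (r := 5 / 4) (by norm_num)
    rw [this, finrank_euclideanSpace_fin]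
  rw [Finset.sum_congr rfl hb, hB, ← Finset.sum_mul] at hvol
  have hpos : volume (Metric.ball (0 : E3) 1) ≠ 0 :=
    (Metric.measure_ball_pos _ _ one_pos).ne'
  have hfin : volume (Metric.ball (0 : E3) 1) ≠ ⊤ := measure_ball_lt_top.ne
  rw [ENNReal.mul_le_mul_iff_left hpos hfin] at hvol
  rw [← ENNReal.ofReal_sum_of_nonneg (fun e _ => by have := h0 e; positivity),
    ENNReal.ofReal_le_ofReal_iff (by norm_num)] at hvol
  have h3 : ∀ e ∈ F, edgeLen x e ^ (3 : ℝ) = 64 * (edgeLen x e / 4) ^ 3 := by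
    intro e _
    rw [show (3 : ℝ) = ((3 : ℕ) : ℝ) by norm_num, Real.rpow_natCast]
    ring
  rw [Finset.sum_congr rfl h3, ← Finset.mul_sum]
  linarith

end Pool.Agent.helper62.Brd
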