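import Pool.Agent.helper62.Brd.Up3
import Pool.Agent.helper62.Brd.Pack
import Pool.Agent.helper62.Brd.Count

/-!
# BRD-15: the explicit upper bound
-/

set_option autoImplicit false

namespace Pool.Agent.helper62.Brd

open SimpleGraph Pool.Agent.helper79.Mst

theorem Fin1_len_nonneg {V : Type} (x : V → E3) (e : Sym2 V) : 0 ≤ edgeLen x e := by
  induction e with
  | _ u v =>
    change 0 ≤ dist (x u) (x v)
    exact dist_nonneg

theorem Fin1_small {α t L : ℝ} (hα : 3 ≤ α) (hL : 0 ≤ L) (hLt : L ≤ t) :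
    L ^ α ≤ t ^ (α - 3) * L ^ (3 : ℝ) := by
  have h : L ^ α = L ^ (α - 3) * L ^ (3 : ℝ) := by
    rw [← Real.rpow_add_of_nonneg hL (by linarith) (by norm_num)]
    congr 1
    ring
  rw [h]
  exact mul_le_mul_of_nonneg_right (Real.rpow_le_rpow hL hLt (by linarith))
    (Real.rpow_nonneg hL _)

/-- A general splitting of the sum: the edges of length at least `t` (at most `kissR t`), and the
others. Let `0 < t ≤ r ≤ 1`, let `m` be at least the number of edges of length at least `r`. Then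
the sum is at most `m + (kissR t) * r ^ α + 125 * t ^ (α - 3)`.
PROOF. `edgeLen ≤ 1` (`edge_le_one`); the edges with `r ≤ |e|` contribute at most `1` each, those
with `t ≤ |e| < r` at most `r ^ α` each, those with `|e| < t`:
`|e| ^ α = |e| ^ (α - 3) * |e| ^ 3 ≤ t ^ (α - 3) * |e| ^ 3`, `cubes_le`. -/
theorem sumPow_split {α t r : ℝ} (hα : 3 ≤ α) (ht : 0 < t) (htr : t ≤ r) (hr : r ≤ 1) {V : Type}
    [Fintype V] {x : V → E3} {o : V} (hx : InBall x o) {T : SimpleGraph V} (hT : IsMST x T) {m : ℕ}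
    (hm : {e | e ∈ T.edgeSet ∧ r ≤ edgeLen x e}.ncard ≤ m) :
    sumPow α x T ≤ m + kissR t * r ^ α + 125 * t ^ (α - 3) := by
  classical
  have hfin : T.edgeSet.Finite := Set.toFinite _
  have hr0 : 0 < r := ht.trans_le htr
  have hcub := cubes_le hx hT
  unfold sumPow
  rw [finsum_mem_eq_finite_toFinset_sum _ hfin] at hcub ⊢
  have hc : ∀ s : ℝ, ((hfin.toFinset.filter fun e => s ≤ edgeLen x e).card : ℝ)
      = ({e | e ∈ T.edgeSet ∧ s ≤ edgeLen x e}.ncard : ℝ) := by
    intro s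
    rw [← Set.ncard_coe_finset]
    congr 2
    ext e
    simp only [Finset.coe_filter, Set.Finite.mem_toFinset]
  have h1 : ∑ e ∈ hfin.toFinset, (if r ≤ edgeLen x e then (1 : ℝ) else 0) ≤ m := by
    rw [Finset.sum_ite, Finset.sum_const_zero, add_zero, Finset.sum_const, nsmul_eq_mul, mul_one,
      hc r]
    exact_mod_cast hm
  have h2 : ∑ e ∈ hfin.toFinset, (if t ≤ edgeLen x e then r ^ α else 0)
      ≤ kissR t * r ^ α := by
    rw [Finset.sum_ite, Finset.sum_const_zero, add_zero, Finset.sum_const, nsmul_eq_mul, hc t]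
    refine mul_le_mul_of_nonneg_right ?_ (Real.rpow_nonneg hr0.le _)
    exact_mod_cast ncard_long_le hx hT ht
  have h3 : ∑ e ∈ hfin.toFinset, t ^ (α - 3) * edgeLen x e ^ (3 : ℝ) ≤ 125 * t ^ (α - 3) := by
    rw [← Finset.mul_sum, mul_comm]
    exact mul_le_mul_of_nonneg_right hcub (Real.rpow_nonneg ht.le _)
  have h4 : ∑ e ∈ hfin.toFinset, edgeLen x e ^ α
      ≤ ∑ e ∈ hfin.toFinset, ((if r ≤ edgeLen x e then (1 : ℝ) else 0)
        + (if t ≤ edgeLen x e then r ^ α else 0) + t ^ (α - 3) * edgeLen x e ^ (3 : ℝ)) := by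
    refine Finset.sum_le_sum fun e he => ?_
    have he' : e ∈ T.edgeSet := hfin.mem_toFinset.1 he
    have hL := Fin1_len_nonneg x e
    have hL1 := edge_le_one hx hT he'
    have hg3 : 0 ≤ t ^ (α - 3) * edgeLen x e ^ (3 : ℝ) :=
      mul_nonneg (Real.rpow_nonneg ht.le _) (Real.rpow_nonneg hL _)
    have hrα : 0 ≤ r ^ α := Real.rpow_nonneg hr0.le _
    by_cases c1 : r ≤ edgeLen x e
    · rw [if_pos c1, if_pos (htr.trans c1)]
      have := Real.rpow_le_one hL hL1 (by linarith : 0 ≤ α)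
      linarith
    · rw [if_neg c1]
      push Not at c1
      by_cases c2 : t ≤ edgeLen x e
      · rw [if_pos c2]
        have := Real.rpow_le_rpow hL c1.le (by linarith : 0 ≤ α)
        linarith
      · rw [if_neg c2]
        push Not at c2
        have := Fin1_small hα hL c2.le
        linarith
  rw [Finset.sum_add_distrib, Finset.sum_add_distrib] at h4
  linarith

/-- The same without the middle part: if at most `m` edges have length at least `t`. -/
theorem sumPow_split' {α t : ℝ} (hα : 3 ≤ α) (ht : 0 < t) (ht1 : t ≤ 1) {V : Type}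
    [Fintype V] {x : V → E3} {o : V} (hx : InBall x o) {T : SimpleGraph V} (hT : IsMST x T) {m : ℕ}
    (hm : {e | e ∈ T.edgeSet ∧ t ≤ edgeLen x e}.ncard ≤ m) :
    sumPow α x T ≤ m + 125 * t ^ (α - 3) := by
  classical
  have _ := ht1
  have hfin : T.edgeSet.Finite := Set.toFinite _
  have hcub := cubes_le hx hT
  unfold sumPow
  rw [finsum_mem_eq_finite_toFinset_sum _ hfin] at hcub ⊢
  have hc : ∀ s : ℝ, ((hfin.toFinset.filter fun e => s ≤ edgeLen x e).card : ℝ)
      = ({e | e ∈ T.edgeSet ∧ s ≤ edgeLen x e}.ncard : ℝ) := by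
    intro s
    rw [← Set.ncard_coe_finset]
    congr 2
    ext e
    simp only [Finset.coe_filter, Set.Finite.mem_toFinset]
  have h1 : ∑ e ∈ hfin.toFinset, (if t ≤ edgeLen x e then (1 : ℝ) else 0) ≤ m := by
    rw [Finset.sum_ite, Finset.sum_const_zero, add_zero, Finset.sum_const, nsmul_eq_mul, mul_one,
      hc t]
    exact_mod_cast hm
  have h3 : ∑ e ∈ hfin.toFinset, t ^ (α - 3) * edgeLen x e ^ (3 : ℝ) ≤ 125 * t ^ (α - 3) := by
    rw [← Finset.mul_sum, mul_comm]
    exact mul_le_mul_of_nonneg_right hcub (Real.rpow_nonneg ht.le _)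
  have h4 : ∑ e ∈ hfin.toFinset, edgeLen x e ^ α
      ≤ ∑ e ∈ hfin.toFinset, ((if t ≤ edgeLen x e then (1 : ℝ) else 0)
        + t ^ (α - 3) * edgeLen x e ^ (3 : ℝ)) := by
    refine Finset.sum_le_sum fun e he => ?_
    have he' : e ∈ T.edgeSet := hfin.mem_toFinset.1 he
    have hL := Fin1_len_nonneg x e
    have hL1 := edge_le_one hx hT he'
    have hg3 : 0 ≤ t ^ (α - 3) * edgeLen x e ^ (3 : ℝ) :=
      mul_nonneg (Real.rpow_nonneg ht.le _) (Real.rpow_nonneg hL _)
    by_cases c1 : t ≤ edgeLen x e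
    · rw [if_pos c1]
      have := Real.rpow_le_one hL hL1 (by linarith : 0 ≤ α)
      linarith
    · rw [if_neg c1]
      push Not at c1
      have := Fin1_small hα hL c1.le
      linarith
  rw [Finset.sum_add_distrib] at h4
  linarith

theorem rho3_le_explicit {α r : ℝ} (hα : 3 ≤ α) (hr : 0 < r) (hr1 : r ≤ 1) :
    rho3 α ≤ ((kissR r + 125 * r ^ (α - 3) : ℝ) : EReal) := by
  refine (rho3_le_sigma (by linarith : 0 < α)).trans ?_
  unfold sigma
  refine sSup_le ?_
  rintro _ ⟨V, _, x, o, T, hx, hT, rfl⟩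
  rw [EReal.coe_le_coe_iff]
  exact sumPow_split' hα hr hr1 hx hT (ncard_long_le hx hT hr)

end Pool.Agent.helper62.Brd
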