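import Pool.Agent.helper62.Brd.Fin1
import Pool.Agent.helper62.Brd.Compact2
import Pool.Agent.helper62.Brd.Count2

/-!
# BRD-16: the exponential rate, upper bound
-/

set_option autoImplicit false

namespace Pool.Agent.helper62.Brd

open SimpleGraph Pool.Agent.helper79.Mst Filter Topology

/-- For a configuration in the ball and all large `α`.
PROOF. Let `r₁` be as in `exists_kissR_eq`, `δ` as in `cfg_dist_lt` for `ε`; one may decrease `δ`
so that `1 - δ ≥ r₁` and `1 - δ ≥ cstar + ε` in case `cstar + ε < 1` (`Cfg (1 - δ')` implies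
`Cfg (1 - δ)` for `δ' ≤ δ`; in case `cstar + ε ≥ 1` put `t = r₁` below). Let `t = cstar + ε < 1`.
Case 1: at most `kiss - 1` (or less than `kiss`) edges have length at least `1 - δ`: `sumPow_split`
with `m = kiss - 1`, `r = 1 - δ` and `t` replaced by `r₁`:
`sumPow ≤ kiss - 1 + kiss * (1 - δ) ^ α + 125 * r₁ ^ (α - 3) ≤ kiss` for large `α`.
Case 2: at least `kiss` edges have length at least `1 - δ`. Then at most `kiss` edges have length at
least `t` (otherwise `exists_cfg` with `r = 1 - δ` gives a configuration with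
`t ≤ dist (z i) (z j)`, against `cfg_dist_lt`), so `sumPow_split'` gives
`sumPow ≤ kiss + 125 * t ^ (α - 3)`. -/
theorem sumPow_upper {ε : ℝ} (hε : 0 < ε) : ∃ A : ℝ, ∀ α : ℝ, A ≤ α → ∀ (V : Type) [Fintype V]
    (x : V → E3) (o : V) (T : SimpleGraph V), InBall x o → IsMST x T →
      sumPow α x T ≤ kiss + 125 * (cstar + ε) ^ (α - 3) := by
  obtain ⟨r₁, hr0, hr1, hk⟩ := exists_kissR_eq
  have hc0 := cstar_nonneg
  rcases le_or_gt 1 (cstar + ε) with hbig | hsmall
  · -- `cstar + ε ≥ 1`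
    refine ⟨3, fun α hα V _ x o T hx hT => ?_⟩
    have h1 := ncard_long_le hx hT hr0
    rw [hk] at h1
    have h2 := sumPow_split' hα hr0 hr1.le hx hT h1
    have h3 : r₁ ^ (α - 3) ≤ 1 := Real.rpow_le_one hr0.le hr1.le (by linarith)
    have h4 : 1 ≤ (cstar + ε) ^ (α - 3) := Real.one_le_rpow hbig (by linarith)
    linarith
  · obtain ⟨δ, hδ0, hδ1, hδ⟩ := cfg_dist_lt hε
    set t : ℝ := cstar + ε with ht
    have ht0 : 0 < t := by linarith
    set r : ℝ := max (1 - δ) (max r₁ t) with hr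
    have hrlt : r < 1 := max_lt (by linarith) (max_lt hr1 hsmall)
    have hrδ : 1 - δ ≤ r := le_max_left _ _
    have hrr : r₁ ≤ r := (le_max_left _ _).trans (le_max_right _ _)
    have hrt : t ≤ r := (le_max_right _ _).trans (le_max_right _ _)
    have hrpos : 0 < r := hr0.trans_le hrr
    -- the bound for large `α`
    have hlim : Tendsto (fun α : ℝ => ((kiss : ℝ) + 125) * r ^ (α - 3)) atTop (𝓝 0) := by
      have h1 : Tendsto (fun α : ℝ => r ^ α) atTop (𝓝 0) :=
        tendsto_rpow_atTop_of_base_lt_one r (by linarith) hrlt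
      have h2 : Tendsto (fun α : ℝ => α - 3) atTop atTop :=
        tendsto_atTop_add_const_right atTop (-3) tendsto_id
      have h3 := (h1.comp h2).const_mul ((kiss : ℝ) + 125)
      rw [mul_zero] at h3
      exact h3
    obtain ⟨A, hA⟩ := eventually_atTop.1 (hlim.eventually (gt_mem_nhds one_pos))
    refine ⟨max A 3, fun α hα V _ x o T hx hT => ?_⟩
    have hα3 : 3 ≤ α := (le_max_right _ _).trans hα
    have hαA : A ≤ α := (le_max_left _ _).trans hα
    have ht3 : 0 ≤ t ^ (α - 3) := Real.rpow_nonneg ht0.le _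
    rcases Nat.lt_or_ge {e | e ∈ T.edgeSet ∧ r ≤ edgeLen x e}.ncard kiss with hlt | hge
    · have h1 : {e | e ∈ T.edgeSet ∧ r ≤ edgeLen x e}.ncard ≤ kiss - 1 := by omega
      have h2 := sumPow_split hα3 hr0 hrr hrlt.le hx hT h1
      have hkpos : 1 ≤ kiss := by omega
      have h3 : ((kiss - 1 : ℕ) : ℝ) = (kiss : ℝ) - 1 := by
        rw [Nat.cast_sub hkpos, Nat.cast_one]
      rw [hk, h3] at h2
      have h4 : r ^ α ≤ r ^ (α - 3) :=
        Real.rpow_le_rpow_of_exponent_ge hrpos hrlt.le (by linarith)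
      have h5 : r₁ ^ (α - 3) ≤ r ^ (α - 3) :=
        Real.rpow_le_rpow hr0.le hrr (by linarith)
      have h6 : (kiss : ℝ) * r ^ α ≤ kiss * r ^ (α - 3) :=
        mul_le_mul_of_nonneg_left h4 (Nat.cast_nonneg _)
      have h7 : ((kiss : ℝ) + 125) * r ^ (α - 3) < 1 := hA α hαA
      have h8 : ((kiss : ℝ) + 125) * r ^ (α - 3) = kiss * r ^ (α - 3) + 125 * r ^ (α - 3) := by
        ring
      linarith
    · have h1 : {e | e ∈ T.edgeSet ∧ t ≤ edgeLen x e}.ncard ≤ kiss := by
        by_contra hcon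
        push Not at hcon
        obtain ⟨z, i, j, hz, hzd⟩ := exists_cfg hx hT hrt hge hcon
        have h2 : Cfg (1 - δ) z i j :=
          ⟨hz.1, hz.2.1, hz.2.2.1, fun k l hkl hne => hrδ.trans (hz.2.2.2 k l hkl hne)⟩
        have h3 := hδ z i j h2
        linarith
      exact sumPow_split' hα3 ht0 hsmall.le hx hT h1

/-- PROOF. Apply `sumPow_upper` with `ε / 2`, and
`125 * (cstar + ε / 2) ^ (α - 3) ≤ (cstar + ε) ^ α` for large `α` (the quotient
`(cstar + ε / 2) / (cstar + ε)` is less than one). -/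
theorem rho3_upper {ε : ℝ} (hε : 0 < ε) : ∃ A : ℝ, ∀ α : ℝ, A ≤ α →
    rho3 α ≤ ((kiss + (cstar + ε) ^ α : ℝ) : EReal) := by
  obtain ⟨A, hA⟩ := sumPow_upper (half_pos hε)
  have hc0 := cstar_nonneg
  set u : ℝ := cstar + ε / 2 with hu
  set w : ℝ := cstar + ε with hw
  have hu0 : 0 < u := by linarith
  have hw0 : 0 < w := by linarith
  have huw : u / w < 1 := by
    rw [div_lt_one hw0]
    linarith
  have hlim : Tendsto (fun α : ℝ => 125 * u ^ (-3 : ℝ) * (u / w) ^ α) atTop (𝓝 0) := by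
    have h1 : Tendsto (fun α : ℝ => (u / w) ^ α) atTop (𝓝 0) :=
      tendsto_rpow_atTop_of_base_lt_one (u / w) (by linarith [div_pos hu0 hw0]) huw
    have h3 := h1.const_mul (125 * u ^ (-3 : ℝ))
    rw [mul_zero] at h3
    exact h3
  obtain ⟨B, hB⟩ := eventually_atTop.1 (hlim.eventually (gt_mem_nhds one_pos))
  refine ⟨max (max A B) 1, fun α hα => ?_⟩
  have hαA : A ≤ α := (le_max_left _ _).trans ((le_max_left _ _).trans hα)
  have hαB : B ≤ α := (le_max_right _ _).trans ((le_max_left _ _).trans hα)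
  have hα1 : 1 ≤ α := (le_max_right _ _).trans hα
  have hwα : 0 < w ^ α := Real.rpow_pos_of_pos hw0 _
  have h1 : 125 * u ^ (α - 3) ≤ w ^ α := by
    have h2 : 125 * u ^ (-3 : ℝ) * (u / w) ^ α < 1 := hB α hαB
    have h3 : (u / w) ^ α = u ^ α / w ^ α := Real.div_rpow hu0.le hw0.le _
    have h4 : u ^ (α - 3) = u ^ (-3 : ℝ) * u ^ α := by
      rw [← Real.rpow_add hu0]
      congr 1
      ring
    rw [h3] at h2
    have h5 : 125 * u ^ (-3 : ℝ) * (u ^ α / w ^ α) = (125 * u ^ (α - 3)) / w ^ α := by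
      rw [h4]
      ring
    rw [h5, div_lt_one hwα] at h2
    exact h2.le
  refine (rho3_le_sigma (by linarith)).trans (sSup_le ?_)
  rintro _ ⟨V, hV, x, o, T, hx, hT, rfl⟩
  rw [EReal.coe_le_coe_iff]
  have h2 := hA α hαA V x o T hx hT
  linarith

end Pool.Agent.helper62.Brd
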