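import Pool.Agent.helper62.Brd.Low3
import Pool.Agent.helper62.Brd.Compact2

/-!
# BRD-17: the lower bound
-/

set_option autoImplicit false

namespace Pool.Agent.helper62.Brd

open SimpleGraph Pool.Agent.helper79.Mst

theorem Fin3_sum_ge {α : ℝ} {V : Type} [Fintype V] {x : V → E3} {T : SimpleGraph V}
    (hT : T.IsTree) (e₀ : Option (Sym2 V)) {c : ℝ} (hc : c ≤ 1)
    (h0 : ∀ e, some e = e₀ → c ≤ edgeLen x e ^ α)
    (h1 : ∀ e ∈ T.edgeSet, some e ≠ e₀ → 1 ≤ edgeLen x e ^ α) :
    (Fintype.card V : ℝ) - 1 - (if e₀ = none then 0 else 1 - c) ≤ sumPow α x T := by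
  classical
  have e1 : sumPow α x T = ∑ e ∈ T.edgeFinset, edgeLen x e ^ α := by
    unfold sumPow
    rw [← finsum_mem_coe_finset, SimpleGraph.coe_edgeFinset]
  have hcard : T.edgeFinset.card + 1 = Fintype.card V := hT.card_edgeFinset
  have hcard' : (Fintype.card V : ℝ) - 1 = (T.edgeFinset.card : ℝ) := by
    rw [← hcard]; push_cast; ring
  rw [e1, hcard']
  have h2 : ∑ e ∈ T.edgeFinset, (1 - (if some e = e₀ then 1 - c else 0))
      ≤ ∑ e ∈ T.edgeFinset, edgeLen x e ^ α := by
    refine Finset.sum_le_sum fun e he => ?_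
    by_cases hee : some e = e₀
    · rw [if_pos hee]
      have := h0 e hee
      linarith
    · rw [if_neg hee]
      have := h1 e (SimpleGraph.mem_edgeFinset.1 he) hee
      linarith
  rw [Finset.sum_sub_distrib, Finset.sum_const, nsmul_eq_mul, mul_one] at h2
  have h3 : ∑ e ∈ T.edgeFinset, (if some e = e₀ then 1 - c else 0)
      ≤ if e₀ = none then 0 else 1 - c := by
    cases e₀ with
    | none => simp
    | some e' =>
      rw [if_neg (by simp)]
      have : ∀ e, (if some e = some e' then 1 - c else 0) = if e = e' then 1 - c else 0 := by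
        intro e; simp
      rw [Finset.sum_congr rfl fun e _ => this e, Finset.sum_ite_eq']
      split_ifs
      · exact le_rfl
      · linarith
  linarith

theorem Fin3_edge_ge {α : ℝ} (hα : 0 < α) {V : Type} {x : V → E3} {T : SimpleGraph V}
    {e : Sym2 V} (he : e ∈ T.edgeSet) (h : ∀ c d, c ≠ d → s(c, d) = e → 1 ≤ dist (x c) (x d)) :
    1 ≤ edgeLen x e ^ α := by
  induction e using Sym2.ind with
  | _ c d =>
    have hcd : c ≠ d := (T.mem_edgeSet.1 he).ne
    have h1 : 1 ≤ dist (x c) (x d) := h c d hcd rfl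
    exact Real.one_le_rpow h1 hα.le

/-- If all distances of different points, except perhaps that of `a`, `b`, are at least `1`, then a
tree has sum of powers at least `card V - 2 + min (dist (x a) (x b)) 1 ^ α`.
PROOF. A tree has `card V - 1` edges (`IsTree.card_edgeFinset`); all but at most one of them have
length at least `1`, so their powers are at least `1`; the remaining one is `s(a, b)` or has length
at least `1`. -/
theorem sumPow_ge {α : ℝ} (hα : 0 < α) {V : Type} [Fintype V] {x : V → E3} {a b : V} (hab : a ≠ b)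
    (h : ∀ c d, c ≠ d → s(c, d) ≠ s(a, b) → 1 ≤ dist (x c) (x d)) {T : SimpleGraph V}
    (hT : T.IsTree) :
    (Fintype.card V : ℝ) - 2 + (min (dist (x a) (x b)) 1) ^ α ≤ sumPow α x T := by
  have hm0 : 0 ≤ min (dist (x a) (x b)) 1 := le_min dist_nonneg zero_le_one
  have h1 := Fin3_sum_ge (α := α) (x := x) hT (some s(a, b))
    (c := (min (dist (x a) (x b)) 1) ^ α) (Real.rpow_le_one hm0 (min_le_right _ _) hα.le)
    (fun e he => by
      have he' : e = s(a, b) := Option.some.inj he
      subst he'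
      exact Real.rpow_le_rpow hm0 (min_le_left _ _) hα.le)
    (fun e he hne => Fin3_edge_ge hα he fun c d hcd hce => by
      refine h c d hcd ?_
      rw [hce]
      exact fun h' => hne (by rw [h']))
  rw [if_neg (by simp)] at h1
  linarith

theorem Fin3_sigma_ge {α : ℝ} {V : Type} [Fintype V] {x : V → E3} {o : V} (hx : InBall x o)
    {T : SimpleGraph V} (hT : IsMST x T) : ((sumPow α x T : ℝ) : EReal) ≤ sigma α :=
  le_sSup ⟨V, inferInstance, x, o, T, hx, hT, rfl⟩

/-- PROOF. `kiss ≤ rho3 α`: the family `Option.elim 0 p : Option (Fin kiss) → E3` with `p` from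
`kiss_mem`; all distances are at least `1`; `exists_mst`, `sumPow_ge` (if `kiss ≥ 1`, with any
`a ≠ b`), `sigma_le_rho3`. -/
theorem kiss_le_rho3 {α : ℝ} (hα : 0 < α) : ((kiss : ℝ) : EReal) ≤ rho3 α := by
  obtain ⟨p, hp1, hp2⟩ := kiss_mem
  let x : Option (Fin kiss) → E3 := fun o => o.elim 0 p
  have hd : ∀ c d, c ≠ d → 1 ≤ dist (x c) (x d) := by
    intro c d hcd
    cases c with
    | none =>
      cases d with
      | none => exact absurd rfl hcd
      | some d =>
        show 1 ≤ dist (0 : E3) (p d)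
        rw [dist_zero_left, hp1]
    | some c =>
      cases d with
      | none =>
        show 1 ≤ dist (p c) (0 : E3)
        rw [dist_zero_right, hp1]
      | some d =>
        exact hp2 c d fun h => hcd (by rw [h])
  have hx : InBall x none := by
    refine ⟨fun c d hcd => ?_, rfl, fun v => ?_⟩
    · by_contra hne
      have := hd c d hne
      rw [hcd, _root_.dist_self] at this
      linarith
    · cases v with
      | none =>
        show ‖(0 : E3)‖ ≤ 1
        rw [norm_zero]; exact zero_le_one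
      | some v =>
        show ‖p v‖ ≤ 1
        rw [hp1]
  obtain ⟨T, hT⟩ := exists_mst x
  have h1 := Fin3_sum_ge (α := α) (x := x) hT.1 none (c := 1) le_rfl
    (fun e he => absurd he (by simp))
    (fun e he _ => Fin3_edge_ge hα he fun c d hcd _ => hd c d hcd)
  rw [if_pos rfl, Fintype.card_option, Fintype.card_fin] at h1
  refine le_trans ?_ ((Fin3_sigma_ge (α := α) hx hT).trans (sigma_le_rho3 hα))
  rw [EReal.coe_le_coe_iff]
  push_cast at h1
  linarith

/-- PROOF. If `dist (z i) (z j) = 0` this is `kiss_le_rho3` (`0 ^ α = 0`). Otherwise `z` is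
injective, hence `InBall z 0`; `dist (z i) (z j) ≤ 1` (it is at most `cstar < 1`); `exists_mst`,
`sumPow_ge`, `sigma_le_rho3`. -/
theorem cfg_lower {α : ℝ} (hα : 0 < α) {z : Fin (kiss + 2) → E3} {i j : Fin (kiss + 2)}
    (h : Cfg 1 z i j) : ((kiss + dist (z i) (z j) ^ α : ℝ) : EReal) ≤ rho3 α := by
  by_cases h0 : dist (z i) (z j) = 0
  · rw [h0, Real.zero_rpow hα.ne', add_zero]
    exact kiss_le_rho3 hα
  · obtain ⟨hij, hz0, hzn, hzd⟩ := h
    have hx : InBall z 0 := by
      refine ⟨fun c d hcd => ?_, hz0, hzn⟩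
      by_contra hne
      by_cases he : s(c, d) = s(i, j)
      · rcases Sym2.eq_iff.1 he with ⟨h1, h2⟩ | ⟨h1, h2⟩
        · exact h0 (by rw [← h1, ← h2, hcd, _root_.dist_self])
        · exact h0 (by rw [← h1, ← h2, hcd, _root_.dist_self])
      · have := hzd c d hne he
        rw [hcd, _root_.dist_self] at this
        linarith
    obtain ⟨T, hT⟩ := exists_mst z
    have h1 := sumPow_ge hα hij hzd hT.1
    have hlt : dist (z i) (z j) ≤ 1 :=
      (dist_le_cstar ⟨hij, hz0, hzn, hzd⟩).trans cstar_lt_one.le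
    rw [min_eq_left hlt, Fintype.card_fin] at h1
    refine le_trans ?_ ((Fin3_sigma_ge (α := α) hx hT).trans (sigma_le_rho3 hα))
    rw [EReal.coe_le_coe_iff]
    push_cast at h1
    linarith

/-- PROOF. If there is no `Cfg 1 z i j`, then `cstar = 0` and this is `kiss_le_rho3`. Otherwise
take the supremum in `cfg_lower` (`t ↦ t ^ α` is continuous and monotone on `t ≥ 0`). -/
theorem rho3_lower {α : ℝ} (hα : 0 < α) : ((kiss + cstar ^ α : ℝ) : EReal) ≤ rho3 α := by
  have hk := kiss_le_rho3 hα
  rcases eq_or_ne (rho3 α) ⊤ with htop | htop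
  · rw [htop]
    exact le_top
  have hbot : rho3 α ≠ ⊥ := by
    intro h
    rw [h, le_bot_iff] at hk
    exact EReal.coe_ne_bot _ hk
  obtain ⟨ρ, hρ⟩ : ∃ ρ : ℝ, rho3 α = (ρ : EReal) :=
    ⟨(rho3 α).toReal, (EReal.coe_toReal htop hbot).symm⟩
  rw [hρ, EReal.coe_le_coe_iff] at hk
  rw [hρ, EReal.coe_le_coe_iff]
  have hM : 0 ≤ ρ - kiss := by linarith
  have h1 : cstar ≤ (ρ - kiss) ^ (1 / α) := by
    refine Real.sSup_le ?_ (Real.rpow_nonneg hM _)
    rintro t ⟨z, i, j, hc, rfl⟩
    have h2 := cfg_lower hα hc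
    rw [hρ, EReal.coe_le_coe_iff] at h2
    have h3 : dist (z i) (z j) ^ α ≤ ρ - kiss := by linarith
    have h4 := Real.rpow_le_rpow (Real.rpow_nonneg dist_nonneg _) h3 (one_div_pos.2 hα).le
    rwa [← Real.rpow_mul dist_nonneg, mul_one_div_cancel hα.ne', Real.rpow_one] at h4
  have h5 := Real.rpow_le_rpow cstar_nonneg h1 hα.le
  rw [← Real.rpow_mul hM, one_div_mul_cancel hα.ne', Real.rpow_one] at h5
  linarith

end Pool.Agent.helper62.Brd
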