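import Pool.Agent.helper62.Brd.Mst

/-!
# BRD-7: the points close to the given ones
-/

set_option autoImplicit false

namespace Pool.Agent.helper62.Brd

open SimpleGraph Pool.Agent.helper79.Mst

variable {V : Type}

/-- The point at distance `ε` from `x u` in the direction of `x v` (equal to `x u` if `u = v`). -/
noncomputable def pt (x : V → E3) (ε : ℝ) (u v : V) : E3 :=
  x u + (ε / dist (x u) (x v)) • (x v - x u)

theorem pt_self (x : V → E3) (ε : ℝ) (u : V) : pt x ε u u = x u := by
  simp [pt]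

theorem dist_pt (x : V → E3) {ε : ℝ} (hε : 0 ≤ ε) (u v : V) : dist (pt x ε u v) (x u) ≤ ε := by
  rw [dist_eq_norm, pt, add_sub_cancel_left, norm_smul, Real.norm_eq_abs, abs_div, abs_of_nonneg hε,
    abs_of_nonneg dist_nonneg, ← dist_eq_norm, dist_comm (x v) (x u)]
  rcases eq_or_ne (dist (x u) (x v)) 0 with h | h
  · rw [h, mul_zero]
    exact hε
  · rw [div_mul_cancel₀ _ h]

/-- (the two points divide the segment from `x u` to `x v`) -/
theorem dist_pt_pt (x : V → E3) {ε : ℝ} (hε : 0 ≤ ε) {u v : V} (h : x u ≠ x v)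
    (h2 : 2 * ε ≤ dist (x u) (x v)) :
    dist (pt x ε u v) (pt x ε v u) = dist (x u) (x v) - 2 * ε := by
  have hD : 0 < dist (x u) (x v) := dist_pos.mpr h
  have h1 : pt x ε u v - pt x ε v u = (1 - 2 * (ε / dist (x u) (x v))) • (x u - x v) := by
    rw [pt, pt, dist_comm (x v) (x u)]
    module
  rw [dist_eq_norm, h1, norm_smul, Real.norm_eq_abs, ← dist_eq_norm]
  have h3 : 0 ≤ 1 - 2 * (ε / dist (x u) (x v)) := by
    rw [← mul_div_assoc, sub_nonneg, div_le_one hD]
    exact h2
  rw [abs_of_nonneg h3]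
  field_simp

/-- the first point in `eq_pt` -/
private theorem Low1_eq (a b : E3) {ε : ℝ} {q q' : E3} (h : a ≠ b)
    (hq : dist q a ≤ ε) (hq' : dist q' b ≤ ε)
    (hqq : dist q q' ≤ dist a b - 2 * ε) : q = a + (ε / dist a b) • (b - a) := by
  have hD : 0 < dist a b := dist_pos.mpr h
  have h1 : dist a b ≤ dist a q + dist q b := dist_triangle _ _ _
  have h2 : dist q b ≤ dist q q' + dist q' b := dist_triangle _ _ _
  rw [dist_comm q a] at hq
  have h3 : dist a q = ε / dist a b * dist a b := by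
    rw [div_mul_cancel₀ _ hD.ne']
    linarith
  have h4 : dist q b = (1 - ε / dist a b) * dist a b := by
    rw [sub_mul, one_mul, div_mul_cancel₀ _ hD.ne']
    linarith
  have h5 := eq_lineMap_of_dist_eq_mul_of_dist_eq_mul h3 h4
  rw [h5, AffineMap.lineMap_apply, vsub_eq_sub, vadd_eq_add, add_comm]

/-- PROOF. `D = dist (x u) (x v) ≤ dist (x u) q + dist q q' + dist q' (x v) ≤ ε + (D - 2 ε) + ε`,
so all inequalities are equalities; equality in the triangle inequality in a Euclidean space
(`dist_add_dist_eq_iff`, `Wbtw`, or by Cauchy-Schwarz) puts `q`, `q'` on the segment. -/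
theorem eq_pt (x : V → E3) {ε : ℝ} (hε : 0 ≤ ε) {u v : V} (h : x u ≠ x v)
    (h2 : 2 * ε < dist (x u) (x v)) {q q' : E3} (hq : dist q (x u) ≤ ε) (hq' : dist q' (x v) ≤ ε)
    (hqq : dist q q' ≤ dist (x u) (x v) - 2 * ε) : q = pt x ε u v ∧ q' = pt x ε v u := by
  refine ⟨Low1_eq _ _ h hq hq' hqq, Low1_eq _ _ h.symm hq' hq ?_⟩
  rw [dist_comm q' q, dist_comm (x v) (x u)]
  exact hqq

/-- Two points in the same direction from `x u`: their distance is the difference of the distances
from `x u`. PROOF. `x v - x u = (dist (x u) (x v) / ε) • w`, `x v' - x u = (..) • w`, `‖w‖ = ε`. -/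
theorem same_dir (x : V → E3) {ε : ℝ} (hε : 0 < ε) {u v v' : V} (h : x u ≠ x v) (h' : x u ≠ x v')
    (he : pt x ε u v = pt x ε u v') :
    dist (x v) (x v') = |dist (x u) (x v) - dist (x u) (x v')| := by
  have hD : 0 < dist (x u) (x v) := dist_pos.mpr h
  have hD' : 0 < dist (x u) (x v') := dist_pos.mpr h'
  rw [pt, pt, add_right_inj] at he
  set w := (ε / dist (x u) (x v)) • (x v - x u) with hw
  have hwn : ‖w‖ = ε := by
    rw [hw, norm_smul, Real.norm_eq_abs, abs_of_pos (div_pos hε hD), ← dist_eq_norm,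
      dist_comm (x v) (x u), div_mul_cancel₀ _ hD.ne']
  have h1 : x v - x u = (dist (x u) (x v) / ε) • w := by
    rw [hw, smul_smul]
    have : dist (x u) (x v) / ε * (ε / dist (x u) (x v)) = 1 := by
      field_simp
    rw [this, one_smul]
  have h2 : x v' - x u = (dist (x u) (x v') / ε) • w := by
    rw [he, smul_smul]
    have : dist (x u) (x v') / ε * (ε / dist (x u) (x v')) = 1 := by
      field_simp
    rw [this, one_smul]
  have h3 : x v - x v' = ((dist (x u) (x v) - dist (x u) (x v')) / ε) • w := by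
    have h4 : x v - x v' = (x v - x u) - (x v' - x u) := by abel
    rw [h4, h1, h2, ← sub_smul, ← sub_div]
  rw [dist_eq_norm, h3, norm_smul, hwn, Real.norm_eq_abs, abs_div, abs_of_pos hε,
    div_mul_cancel₀ _ hε.ne']

/-- `ε ≤` the distance: the point lies on the segment, hence in the ball. -/
theorem norm_pt_le (x : V → E3) {ε : ℝ} (hε : 0 ≤ ε) {u v : V} (hu : ‖x u‖ ≤ 1) (hv : ‖x v‖ ≤ 1)
    (h : u ≠ v → ε ≤ dist (x u) (x v)) : ‖pt x ε u v‖ ≤ 1 := by
  rcases eq_or_ne u v with huv | huv
  · subst huv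
    rw [pt_self]
    exact hu
  · have hle := h huv
    rcases eq_or_lt_of_le (dist_nonneg : 0 ≤ dist (x u) (x v)) with h0 | h0
    · rw [pt, ← h0, div_zero, zero_smul, add_zero]
      exact hu
    · have ht0 : 0 ≤ ε / dist (x u) (x v) := div_nonneg hε h0.le
      have ht1 : ε / dist (x u) (x v) ≤ 1 := (div_le_one h0).mpr hle
      set t := ε / dist (x u) (x v) with ht
      have h1 : pt x ε u v = (1 - t) • x u + t • x v := by
        rw [pt, ← ht]
        module
      rw [h1]
      calc ‖(1 - t) • x u + t • x v‖ ≤ ‖(1 - t) • x u‖ + ‖t • x v‖ := norm_add_le _ _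
        _ = (1 - t) * ‖x u‖ + t * ‖x v‖ := by
            rw [norm_smul, norm_smul, Real.norm_eq_abs, Real.norm_eq_abs,
              abs_of_nonneg (by linarith : 0 ≤ 1 - t), abs_of_nonneg ht0]
        _ ≤ (1 - t) * 1 + t * 1 := by
            apply add_le_add
            · exact mul_le_mul_of_nonneg_left hu (by linarith)
            · exact mul_le_mul_of_nonneg_left hv ht0
        _ = 1 := by ring

end Pool.Agent.helper62.Brd
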