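import Pool.Agent.helper62.Brd.Low1

/-!
# BRD-8: minimum spanning trees of the enlarged point set
-/

set_option autoImplicit false

namespace Pool.Agent.helper62.Brd

open SimpleGraph Pool.Agent.helper79.Mst

variable {V W : Type}

/-- `y : W → E3` is a point set in small balls about the points `x v` (`cl w` is the index of the
ball) which contains all the points `pt x ε u v`. -/
structure Enl (x : V → E3) (ε : ℝ) (y : W → E3) (cl : W → V) : Prop where
  pos : 0 < ε
  sep : ∀ u v, u ≠ v → 4 * ε < dist (x u) (x v)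
  inj : Function.Injective y
  near : ∀ w, dist (y w) (x (cl w)) ≤ ε
  has : ∀ u v, ∃ w, y w = pt x ε u v ∧ cl w = u

variable {x : V → E3} {ε : ℝ} {y : W → E3} {cl : W → V}

theorem Low2_ne (h : Enl x ε y cl) {w w' : W} (hc : cl w ≠ cl w') : x (cl w) ≠ x (cl w') := by
  intro he
  have h1 := h.sep _ _ hc
  rw [he, _root_.dist_self] at h1
  linarith [h.pos]

theorem Low2_dist (h : Enl x ε y cl) {w w' : W} (hc : cl w ≠ cl w') :
    2 * ε < dist (y w) (y w') := by
  have h1 := h.sep _ _ hc
  have h2 := h.near w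
  have h3 := h.near w'
  have h4 := dist_triangle4 (x (cl w)) (y w) (y w') (x (cl w'))
  rw [dist_comm (x (cl w)) (y w)] at h4
  linarith

/-- the points of one ball are joined after a long edge is deleted -/
theorem Low2_ball [Fintype W] (h : Enl x ε y cl) {T : SimpleGraph W} (hT : IsMST y T) {w w' : W}
    (hw : T.Adj w w') (hc : cl w ≠ cl w') {c : W} :
    ∀ a, cl a = cl c → (T.deleteEdges {s(w, w')}).Reachable c a := by
  intro a ha
  by_contra hn
  have h1 := mst_cut hT hw hn
  have h2 := Low2_dist h hc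
  have h3 := h.near c
  have h4 := h.near a
  rw [ha] at h4
  have h5 := dist_triangle_right (y c) (y a) (x (cl c))
  linarith

/-- PROOF. Points of `W` in the same small ball have distance at most `2 ε`, and
`dist (y w) (y w') ≥ dist (x (cl w)) (x (cl w')) - 2 ε > 2 ε`. In `T - ww'` (`s(w, w')` deleted)
`w` and `w'` are not joined. Every `a` with `cl a = cl w` is joined to `w` in `T - ww'`: otherwise
`mst_cut` gives `dist (y w) (y w') ≤ dist (y w) (y a) ≤ 2 ε`. In the same way every `b` with
`cl b = cl w'` is joined to `w'`. So such `a`, `b` are not joined, and `mst_cut` gives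
`dist (y w) (y w') ≤ dist (y a) (y b)`; take `y a = pt x ε (cl w) (cl w')`,
`y b = pt x ε (cl w') (cl w)` (`Enl.has`), use `dist_pt_pt` and then `eq_pt`. -/
theorem long_edge [Fintype W] (h : Enl x ε y cl) {T : SimpleGraph W} (hT : IsMST y T) {w w' : W}
    (hw : T.Adj w w') (hc : cl w ≠ cl w') :
    y w = pt x ε (cl w) (cl w') ∧ y w' = pt x ε (cl w') (cl w) := by
  have hlow := Low2_dist h hc
  have hsep := h.sep _ _ hc
  have hpos := h.pos
  have hx : x (cl w) ≠ x (cl w') := Low2_ne h hc
  have hnr := not_reach hT.1 hw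
  have h1 := Low2_ball h hT hw hc (c := w)
  have h2 := Low2_ball h hT hw hc (c := w')
  obtain ⟨a, ha, hca⟩ := h.has (cl w) (cl w')
  obtain ⟨b, hb, hcb⟩ := h.has (cl w') (cl w)
  have hab : ¬ (T.deleteEdges {s(w, w')}).Reachable a b := fun hr =>
    hnr ((h1 a hca).trans (hr.trans (h2 b hcb).symm))
  have h3 := mst_cut hT hw hab
  rw [ha, hb, dist_pt_pt x hpos.le hx (by linarith)] at h3
  exact eq_pt x hpos.le hx (by linarith) (h.near w) (h.near w') h3

theorem Low2_core [Fintype W] (h : Enl x ε y cl) {T : SimpleGraph W} (hT : IsMST y T)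
    {w a b : W} (ha : T.Adj w a) (hb : T.Adj w b) (hca : cl w ≠ cl a) (hcb : cl w ≠ cl b)
    (hv : cl a ≠ cl b)
    (hsd : dist (x (cl a)) (x (cl b)) = |dist (x (cl w)) (x (cl a)) - dist (x (cl w)) (x (cl b))|)
    (hlt : dist (x (cl w)) (x (cl a)) < dist (x (cl w)) (x (cl b))) : False := by
  have hpos := h.pos
  obtain ⟨hb1, hb2⟩ := long_edge h hT hb hcb
  have hab : a ≠ b := fun he => hv (by rw [he])
  have hadj : (T.deleteEdges {s(w, b)}).Adj w a := by
    rw [SimpleGraph.deleteEdges_adj]
    refine ⟨ha, ?_⟩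
    rw [Set.mem_singleton_iff, Sym2.eq_iff]
    rintro (⟨_, h2⟩ | ⟨h1, _⟩)
    · exact hab h2
    · exact hb.ne h1
  have hnr := not_reach hT.1 hb
  obtain ⟨p, hp, hcp⟩ := h.has (cl a) (cl b)
  obtain ⟨q, hq, hcq⟩ := h.has (cl b) (cl a)
  have h1 := Low2_ball h hT hb hcb (c := a) p hcp
  have h2 := Low2_ball h hT hb hcb (c := b) q hcq
  have hpq : ¬ (T.deleteEdges {s(w, b)}).Reachable p q := fun hr =>
    hnr (hadj.reachable.trans (h1.trans (hr.trans h2.symm)))
  have h3 := mst_cut hT hb hpq
  have hsep1 := h.sep _ _ hcb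
  have hsep2 := h.sep _ _ hv
  rw [hp, hq, dist_pt_pt x hpos.le (Low2_ne h hv) (by linarith), hb1, hb2,
    dist_pt_pt x hpos.le (Low2_ne h hcb) (by linarith)] at h3
  rw [abs_sub_comm, abs_of_pos (by linarith)] at hsd
  have h4 : 0 < dist (x (cl w)) (x (cl a)) := dist_pos.2 (Low2_ne h hca)
  linarith

/-- Two long edges do not start at the same point.
PROOF. Let `u = cl w`, `v = cl a`, `v' = cl b`. By `long_edge`, `pt x ε u v = y w = pt x ε u v'`.
If `v = v'` then `y a = pt x ε v u = y b` by `long_edge`, so `a = b`. Otherwise, by `same_dir`,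
`dist (x v) (x v') = |dist (x u) (x v) - dist (x u) (x v')|`; by symmetry let
`dist (x u) (x v) < dist (x u) (x v')` (they are different as `x v ≠ x v'`), so
`dist (x v) (x v') < dist (x u) (x v')`. Delete the edge `wb`: `a` is joined to `w` by the edge `aw`,
which is different from `wb`. As in `long_edge`, points of the same ball as `a` (resp. `b`) are
joined to `a` (resp. `b`) in `T - wb`: for the ball of `w` and of `b` as in `long_edge`; for the
ball of `a`: if `c`, `cl c = cl a`, is not joined to `a` in `T - wb`, then `mst_cut` gives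
`dist (y w) (y b) ≤ dist (y a) (y c) ≤ 2 ε`. So the points `pt x ε v v'` and `pt x ε v' v` are not
joined in `T - wb` and `mst_cut` gives
`dist (x u) (x v') - 2 ε = dist (y w) (y b) ≤ dist (x v) (x v') - 2 ε`, a contradiction. -/
theorem long_unique [Fintype W] (h : Enl x ε y cl) {T : SimpleGraph W} (hT : IsMST y T)
    {w a b : W} (ha : T.Adj w a) (hb : T.Adj w b) (hca : cl w ≠ cl a) (hcb : cl w ≠ cl b) :
    a = b := by
  obtain ⟨ha1, ha2⟩ := long_edge h hT ha hca
  obtain ⟨hb1, hb2⟩ := long_edge h hT hb hcb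
  by_cases hv : cl a = cl b
  · apply h.inj
    rw [ha2, hb2, hv]
  · exfalso
    have hsd := same_dir x h.pos (Low2_ne h hca) (Low2_ne h hcb) (ha1.symm.trans hb1)
    have hsep := h.sep _ _ hv
    have hpos := h.pos
    rcases lt_trichotomy (dist (x (cl w)) (x (cl a))) (dist (x (cl w)) (x (cl b))) with hlt | heq | hgt
    · exact Low2_core h hT ha hb hca hcb hv hsd hlt
    · rw [heq, sub_self, abs_zero] at hsd
      linarith
    · refine Low2_core h hT hb ha hcb hca (Ne.symm hv) ?_ hgt
      rw [dist_comm (x (cl b)), hsd, abs_sub_comm]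

/-- The graph of the long edges on `V`. -/
def coarse (cl : W → V) (T : SimpleGraph W) : SimpleGraph V where
  Adj u v := u ≠ v ∧ ∃ w w', T.Adj w w' ∧ cl w = u ∧ cl w' = v
  symm := ⟨fun _ _ h => ⟨h.1.symm, by
    obtain ⟨w, w', h1, h2, h3⟩ := h.2
    exact ⟨w', w, h1.symm, h3, h2⟩⟩⟩
  loopless := ⟨fun _ h => h.1 rfl⟩

/-- PROOF. `cl` is surjective (`Enl.has`); a walk of `T` is mapped to a walk. -/
theorem coarse_connected [Fintype W] (h : Enl x ε y cl) {T : SimpleGraph W} (hT : T.Connected) :
    (coarse cl T).Connected := by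
  have hstep : ∀ a b, T.Adj a b → (coarse cl T).Reachable (cl a) (cl b) := by
    intro a b hab
    by_cases hc : cl a = cl b
    · rw [hc]
    · exact SimpleGraph.Adj.reachable (G := coarse cl T) ⟨hc, a, b, hab, rfl, rfl⟩
  have hreach : ∀ a b, T.Reachable a b → (coarse cl T).Reachable (cl a) (cl b) := by
    rintro a b ⟨p⟩
    induction p with
    | nil => exact SimpleGraph.Reachable.refl _
    | cons hab _ ih => exact (hstep _ _ hab).trans ih
  haveI : Nonempty V := ⟨cl (Classical.choice hT.nonempty)⟩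
  refine ⟨fun u v => ?_⟩
  obtain ⟨a, _, ha⟩ := h.has u u
  obtain ⟨b, _, hb⟩ := h.has v v
  rw [← ha, ← hb]
  exact hreach a b (hT.preconnected a b)

/-- PROOF. Orient `T` away from `s`. For an edge `e = uv` of `coarse cl T` there are `w`, `w'` with
`T.Adj w w'`, `cl w = u`, `cl w' = v`; one of them, say the tail `w`, has the other as
out-neighbour (the distances from `s` differ by one); choose such a tail `t e : W` and head. The map
`t` from the edges of `coarse cl T` to `W` is injective by `long_unique` (the tail determines the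
head, and the pair determines `u`, `v`). So by `energy_ge` (or directly)
`energy α y s T ≥ ∑ e, dist (y (tail e)) (y (head e)) ^ α`, and by `long_edge` and `dist_pt_pt`
`dist (y w) (y w') = dist (x u) (x v) - 2 ε`. -/
theorem energy_ge_coarse [Fintype V] [Fintype W] (h : Enl x ε y cl) {T : SimpleGraph W}
    (hT : IsMST y T) (α : ℝ) (s : W) :
    ∑ᶠ e ∈ (coarse cl T).edgeSet, (max (edgeLen x e - 2 * ε) 0) ^ α ≤ energy α y s T := by
  classical
  haveI : Nonempty W := ⟨s⟩
  have hex : ∀ e ∈ (coarse cl T).edgeSet, ∃ w w', OutNbr T s w w' ∧ cl w ≠ cl w' ∧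
      e = s(cl w, cl w') := by
    intro e
    induction e using Sym2.ind with
    | _ u v =>
      intro he
      rw [SimpleGraph.mem_edgeSet] at he
      obtain ⟨huv, w, w', hadj, rfl, rfl⟩ := he
      rcases hT.1.dist_eq_dist_add_one_of_adj s hadj with h1 | h1
      · exact ⟨w', w, ⟨hadj.symm, h1⟩, huv.symm, Sym2.eq_swap⟩
      · exact ⟨w, w', ⟨hadj, h1⟩, huv, rfl⟩
  choose! t c hout hcl he using hex
  rw [finsum_mem_eq_finite_toFinset_sum _ (Set.toFinite (coarse cl T).edgeSet)]
  have hinj : Set.InjOn t (coarse cl T).edgeSet := by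
    intro e he1 e' he2 hee
    have h1 := hout e he1
    have h2 := hout e' he2
    have h3 := hcl e he1
    have h4 := hcl e' he2
    rw [hee] at h1 h3
    have h5 := long_unique h hT h1.1 h2.1 h3 h4
    rw [he e he1, he e' he2, hee, h5]
  calc ∑ e ∈ (Set.toFinite (coarse cl T).edgeSet).toFinset, (max (edgeLen x e - 2 * ε) 0) ^ α
      ≤ ∑ e ∈ (Set.toFinite (coarse cl T).edgeSet).toFinset,
          ⨆ v : {v : W // OutNbr T s (t e) v}, dist (y (t e)) (y v.1) ^ α := by
        refine Finset.sum_le_sum fun e hmem => ?_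
        rw [Set.Finite.mem_toFinset] at hmem
        refine le_trans (le_of_eq ?_) (le_term α y s T (hout e hmem))
        obtain ⟨h1, h2⟩ := long_edge h hT (hout e hmem).1 (hcl e hmem)
        have h3 := h.sep _ _ (hcl e hmem)
        have hpos := h.pos
        have h4 : edgeLen x e = dist (x (cl (t e))) (x (cl (c e))) := by
          conv_lhs => rw [he e hmem]
          rfl
        rw [h1, h2, dist_pt_pt x hpos.le (Low2_ne h (hcl e hmem)) (by linarith), h4,
          max_eq_left (by linarith)]
    _ = ∑ u ∈ ((Set.toFinite (coarse cl T).edgeSet).toFinset).image t,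
          ⨆ v : {v : W // OutNbr T s u v}, dist (y u) (y v.1) ^ α := by
        rw [Finset.sum_image]
        intro e he1 e' he2 hee
        rw [Finset.mem_coe, Set.Finite.mem_toFinset] at he1 he2
        exact hinj he1 he2 hee
    _ ≤ energy α y s T :=
        Finset.sum_le_sum_of_subset_of_nonneg (Finset.subset_univ _) fun u _ _ =>
          term_nonneg α y s T u

end Pool.Agent.helper62.Brd
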