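import Pool.Agent.helper62.Brd.Low2

/-!
# BRD-9: `σ ≤ ρ_3`
-/

set_option autoImplicit false

namespace Pool.Agent.helper62.Brd

open SimpleGraph Pool.Agent.helper79.Mst

/-- PROOF. `W = Set.range (fun p : V × V => pt x ε p.1 p.2)` (finite), `y` = inclusion, `cl w` = some
`u` with `y w = pt x ε u v`, which is determined by `dist (y w) (x u) ≤ ε`
(`dist_pt`) because different points `x u` have distance more than `4 ε`. The source is the point
`x o = pt x ε o o = 0`, all points have norm at most one (`norm_pt_le`). -/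
theorem exists_enl {V : Type} [Fintype V] {x : V → E3} {o : V} (hx : InBall x o) {ε : ℝ}
    (hε : 0 < ε) (hsep : ∀ u v, u ≠ v → 4 * ε < dist (x u) (x v)) :
    ∃ (W : Type) (_ : Fintype W) (y : W → E3) (cl : W → V) (s : W), Enl x ε y cl ∧ y s = 0 ∧
      ∀ w, ‖y w‖ ≤ 1 := by
  classical
  let W : Type := Set.range (fun p : V × V => pt x ε p.1 p.2)
  have hfin : Finite W := Set.finite_range (fun p : V × V => pt x ε p.1 p.2)
  let cl : W → V := fun w => (Classical.choose w.2).1
  have hcl : ∀ w : W, ∃ v, (w : E3) = pt x ε (cl w) v := fun w =>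
    ⟨(Classical.choose w.2).2, (Classical.choose_spec w.2).symm⟩
  have hnear : ∀ w : W, dist (w : E3) (x (cl w)) ≤ ε := by
    intro w
    obtain ⟨v, hv⟩ := hcl w
    rw [hv]
    exact dist_pt x hε.le _ _
  refine ⟨W, Fintype.ofFinite W, Subtype.val, cl, ⟨pt x ε o o, (o, o), rfl⟩,
    ⟨hε, hsep, Subtype.val_injective, hnear, ?_⟩, ?_, ?_⟩
  · intro u v
    refine ⟨⟨pt x ε u v, (u, v), rfl⟩, rfl, ?_⟩
    by_contra hne
    have h1 := hnear ⟨pt x ε u v, (u, v), rfl⟩
    have h2 := dist_pt x hε.le u v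
    have h3 := hsep _ _ hne
    have h4 := dist_triangle_left (x (cl ⟨pt x ε u v, (u, v), rfl⟩)) (x u) (pt x ε u v)
    simp only at h1
    linarith
  · change pt x ε o o = 0
    rw [pt_self, hx.center]
  · intro w
    obtain ⟨v, hv⟩ := hcl w
    rw [hv]
    refine norm_pt_le x hε.le (hx.ball _) (hx.ball _) fun hne => ?_
    have := hsep _ _ hne
    linarith

/-- PROOF. Let `W, y, cl, s` be as in `exists_enl` and `T'` a minimum spanning tree (`exists_mst`).
`W` has at least two elements (`cl` is surjective). `opt α y s ≤ 1` (`opt_le_one`), `opt > 0`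
(`opt_pos`), and `energy α y s T' ≥ ∑ᶠ e ∈ (coarse cl T').edgeSet, max (edgeLen x e - 2 ε) 0 ^ α ≥
∑ᶠ e ∈ T.edgeSet, max (edgeLen x e - 2 ε) 0 ^ α` (`energy_ge_coarse`, `coarse_connected`,
`mst_sum_le`). -/
theorem rho3_ge {α : ℝ} (hα : 0 < α) {V : Type} [Fintype V] {x : V → E3} {o : V}
    (hx : InBall x o) {T : SimpleGraph V} (hT : IsMST x T) (hV : 2 ≤ Fintype.card V) {ε : ℝ}
    (hε : 0 < ε) (hsep : ∀ u v, u ≠ v → 4 * ε < dist (x u) (x v)) :
    (((∑ᶠ e ∈ T.edgeSet, (max (edgeLen x e - 2 * ε) 0) ^ α : ℝ)) : EReal) ≤ rho3 α := by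
  classical
  obtain ⟨W, hW, y, cl, s, hE, hs, hn⟩ := exists_enl hx hε hsep
  have : Nonempty W := ⟨s⟩
  obtain ⟨T', hT'⟩ := exists_mst y
  have hsurj : Function.Surjective cl := fun u => by
    obtain ⟨w, -, hw⟩ := hE.has u u
    exact ⟨w, hw⟩
  have hcard : 2 ≤ Fintype.card W := hV.trans (Fintype.card_le_of_surjective cl hsurj)
  have hopt1 : opt α y s ≤ 1 := by
    refine opt_le_one hα.le y s fun v => ?_
    rw [hs, dist_zero_left]
    exact hn v
  have hopt0 : 0 < opt α y s := by
    have : Nontrivial W := Fintype.one_lt_card_iff_nontrivial.1 hcard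
    obtain ⟨v0, hv0⟩ := exists_ne s
    obtain ⟨v1, hv1, hmin⟩ := Finset.exists_min_image (Finset.univ.filter fun v : W => v ≠ s)
      (fun v => dist (y s) (y v)) ⟨v0, by simp [hv0]⟩
    have hv1' : v1 ≠ s := (Finset.mem_filter.1 hv1).2
    refine opt_pos hα.le y s (ε := dist (y s) (y v1))
      (dist_pos.2 fun h => hv1' (hE.inj h).symm) (fun v hv => hmin v (by simp [hv])) hcard
  have h1 : ∑ᶠ e ∈ T.edgeSet, (max (edgeLen x e - 2 * ε) 0) ^ α ≤
      ∑ᶠ e ∈ (coarse cl T').edgeSet, (max (edgeLen x e - 2 * ε) 0) ^ α := by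
    refine mst_sum_le (φ := fun t => (max (t - 2 * ε) 0) ^ α) hT (coarse_connected hE hT'.1.1)
      ?_ ?_
    · intro a _ b _ hab
      refine Real.rpow_le_rpow (le_max_right _ _) ?_ hα.le
      exact max_le_max (by linarith) le_rfl
    · intro t _
      exact Real.rpow_nonneg (le_max_right _ _) _
  have h2 := energy_ge_coarse hE hT' α s
  have h3 : energy α y s T' ≤ energy α y s T' / opt α y s := by
    rw [le_div_iff₀ hopt0]
    have := mul_le_mul_of_nonneg_left hopt1 (energy_nonneg α y s T')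
    linarith
  have h4 : ((energy α y s T' / opt α y s : ℝ) : EReal) ≤ rho3 α :=
    le_sSup ⟨W, hW, y, s, T', hcard, hE.inj, hT', rfl⟩
  refine le_trans ?_ h4
  exact EReal.coe_le_coe_iff.2 ((h1.trans h2).trans h3)

theorem Low3_edgeLen_nonneg {V : Type} (x : V → E3) (e : Sym2 V) : 0 ≤ edgeLen x e := by
  induction e with
  | h u v => exact dist_nonneg (x := x u) (y := x v)

theorem Low3_rho3_nonneg (α : ℝ) : 0 ≤ rho3 α := by
  let x : Bool → E3 := fun b => if b then EuclideanSpace.single 0 1 else 0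
  have hx : Function.Injective x := by
    have h0 : (EuclideanSpace.single (0 : Fin 3) (1 : ℝ) : E3) ≠ 0 := by
      intro h
      have h1 := congrArg (fun v : E3 => v 0) h
      simp at h1
    intro a b hab
    cases a <;> cases b
    · rfl
    · exact absurd hab.symm h0
    · exact absurd hab h0
    · rfl
  obtain ⟨T, hT⟩ := exists_mst x
  have h1 : ((energy α x true T / opt α x true : ℝ) : EReal) ≤ rho3 α :=
    le_sSup ⟨Bool, inferInstance, x, true, T, by simp, hx, hT, rfl⟩
  refine le_trans ?_ h1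
  rw [← EReal.coe_zero]
  refine EReal.coe_le_coe_iff.2 (div_nonneg (energy_nonneg _ _ _ _) ?_)
  refine Real.sInf_nonneg ?_
  rintro _ ⟨T', -, rfl⟩
  exact energy_nonneg _ _ _ _

theorem Low3_sep {V : Type} [Fintype V] {x : V → E3} (hx : Function.Injective x) :
    ∃ ε : ℝ, 0 < ε ∧ ∀ u v, u ≠ v → 4 * ε < dist (x u) (x v) := by
  classical
  by_cases hne : (Finset.univ.filter fun p : V × V => p.1 ≠ p.2).Nonempty
  · obtain ⟨p, hp, hmin⟩ := Finset.exists_min_image (Finset.univ.filter fun p : V × V => p.1 ≠ p.2)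
      (fun p => dist (x p.1) (x p.2)) hne
    have hp' : p.1 ≠ p.2 := (Finset.mem_filter.1 hp).2
    have h0 : 0 < dist (x p.1) (x p.2) := dist_pos.2 fun h => hp' (hx h)
    refine ⟨dist (x p.1) (x p.2) / 8, by positivity, fun u v huv => ?_⟩
    have := hmin (u, v) (by simp [huv])
    simp only at this
    linarith
  · refine ⟨1, one_pos, fun u v huv => ?_⟩
    exact absurd ⟨(u, v), by simp [huv]⟩ hne

/-- PROOF. Let `ε` tend to `0` in `rho3_ge`: the finite sum is continuous in `ε` (`α > 0`), and at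
`ε = 0` it is `sumPow α x T`. If `V` has one element, `sumPow α x T = 0` and `0 ≤ rho3 α` (any
instance with two points has a nonnegative ratio, or apply `rho3_ge` to a two-point set). -/
theorem sigma_le_rho3 {α : ℝ} (hα : 0 < α) : sigma α ≤ rho3 α := by
  refine sSup_le ?_
  rintro _ ⟨V, hV, x, o, T, hx, hT, rfl⟩
  by_cases hcard : 2 ≤ Fintype.card V
  · obtain ⟨ε₀, hε₀, hsep⟩ := Low3_sep hx.inj
    have hfin : T.edgeSet.Finite := Set.toFinite _
    have hS : ∀ ε : ℝ, ∑ᶠ e ∈ T.edgeSet, (max (edgeLen x e - 2 * ε) 0) ^ α =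
        ∑ e ∈ hfin.toFinset, (max (edgeLen x e - 2 * ε) 0) ^ α := fun ε =>
      finsum_mem_eq_finite_toFinset_sum _ hfin
    have hcont : Continuous fun ε : ℝ =>
        ∑ e ∈ hfin.toFinset, (max (edgeLen x e - 2 * ε) 0) ^ α := by
      refine continuous_finsetSum _ fun e _ => ?_
      refine Continuous.rpow_const (by fun_prop) fun ε => Or.inr hα.le
    have h0 : sumPow α x T = ∑ e ∈ hfin.toFinset, (max (edgeLen x e - 2 * 0) 0) ^ α := by
      unfold sumPow
      rw [finsum_mem_eq_finite_toFinset_sum _ hfin]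
      refine Finset.sum_congr rfl fun e _ => ?_
      rw [mul_zero, sub_zero, max_eq_left (Low3_edgeLen_nonneg x e)]
    have hlim : Filter.Tendsto (fun ε : ℝ =>
        ((∑ e ∈ hfin.toFinset, (max (edgeLen x e - 2 * ε) 0) ^ α : ℝ) : EReal))
        (nhdsWithin 0 (Set.Ioi 0)) (nhds ((sumPow α x T : ℝ) : EReal)) := by
      rw [h0]
      exact ((continuous_coe_real_ereal.comp hcont).tendsto 0).mono_left nhdsWithin_le_nhds
    refine le_of_tendsto hlim ?_
    have hmem : Set.Ioo (0 : ℝ) ε₀ ∈ nhdsWithin (0 : ℝ) (Set.Ioi 0) :=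
      Ioo_mem_nhdsGT hε₀
    filter_upwards [hmem] with ε hε
    rw [← hS]
    refine rho3_ge hα hx hT hcard hε.1 fun u v huv => ?_
    have := hsep u v huv
    have h2 := hε.2
    linarith
  · have hsub : Subsingleton V := by
      rw [← Fintype.card_le_one_iff_subsingleton]
      omega
    have hE : T.edgeSet = ∅ := by
      ext e
      induction e with
      | h u v =>
        simp only [SimpleGraph.mem_edgeSet, Set.mem_empty_iff_false, iff_false]
        intro h
        exact h.ne (Subsingleton.elim u v)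
    have h0 : sumPow α x T = 0 := by
      unfold sumPow
      rw [hE, finsum_mem_empty]
    rw [h0]
    exact Low3_rho3_nonneg α

end Pool.Agent.helper62.Brd
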