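import Pool.Agent.helper62.Brd.Fin2
import Pool.Agent.helper62.Brd.Fin3

/-!
# Assembly
-/

set_option autoImplicit false

namespace Pool.Agent.helper62.Brd

open Pool.Agent.helper79.Mst

theorem rho3_eq_sigma {α : ℝ} (hα : 0 < α) : rho3 α = sigma α :=
  le_antisymm (rho3_le_sigma hα) (sigma_le_rho3 hα)

theorem main :
    (∀ α : ℝ, 0 < α → rho3 α = sigma α) ∧
    (∀ α r : ℝ, 3 ≤ α → 0 < r → r ≤ 1 →
      rho3 α ≤ ((kissR r + 125 * r ^ (α - 3) : ℝ) : EReal)) ∧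
    (∃ r : ℝ, 0 < r ∧ r < 1 ∧ kissR r = kiss) ∧
    0 ≤ cstar ∧ cstar < 1 ∧
    (∀ α : ℝ, 0 < α → ((kiss + cstar ^ α : ℝ) : EReal) ≤ rho3 α) ∧
    (∀ ε : ℝ, 0 < ε → ∃ A : ℝ, ∀ α : ℝ, A ≤ α →
      rho3 α ≤ ((kiss + (cstar + ε) ^ α : ℝ) : EReal)) :=
  ⟨fun _ hα => rho3_eq_sigma hα, fun _ _ hα hr hr1 => rho3_le_explicit hα hr hr1,
    exists_kissR_eq, cstar_nonneg, cstar_lt_one, fun _ hα => rho3_lower hα,
    fun _ hε => rho3_upper hε⟩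

end Pool.Agent.helper62.Brd
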