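import Pool.Agent.helper62.Brd.Main

/-!
# Monotonicity in the exponent
-/

set_option autoImplicit false

namespace Pool.Agent.helper62.Brd

open SimpleGraph Pool.Agent.helper79.Mst

theorem sumPow_anti {α β : ℝ} (hα : 0 < α) (h : α ≤ β) {V : Type} [Fintype V] {x : V → E3}
    {o : V} (hx : InBall x o) {T : SimpleGraph V} (hT : IsMST x T) :
    sumPow β x T ≤ sumPow α x T := by
  classical
  have hfin : T.edgeSet.Finite := Set.toFinite _
  unfold sumPow
  rw [finsum_mem_eq_finite_toFinset_sum _ hfin, finsum_mem_eq_finite_toFinset_sum _ hfin]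
  refine Finset.sum_le_sum fun e he => ?_
  have he' : e ∈ T.edgeSet := hfin.mem_toFinset.1 he
  have h1 := edge_le_one hx hT he'
  have h0 : 0 ≤ edgeLen x e := Low3_edgeLen_nonneg x e
  rcases h0.eq_or_lt with h0 | h0
  · rw [← h0, Real.zero_rpow (hα.trans_le h).ne', Real.zero_rpow hα.ne']
  · exact Real.rpow_le_rpow_of_exponent_ge h0 h1 h

/-- `ρ_3` is a nonincreasing function of the exponent. -/
theorem rho3_antitone {α β : ℝ} (hα : 0 < α) (h : α ≤ β) : rho3 β ≤ rho3 α := by
  rw [rho3_eq_sigma hα, rho3_eq_sigma (hα.trans_le h)]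
  refine sSup_le ?_
  rintro _ ⟨V, hV, x, o, T, hx, hT, rfl⟩
  refine le_trans (EReal.coe_le_coe_iff.2 (sumPow_anti hα h hx hT)) ?_
  exact le_sSup ⟨V, hV, x, o, T, hx, hT, rfl⟩

end Pool.Agent.helper62.Brd
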