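import Pool.Agent.helper62.Brd.Tree

/-!
# BRD-2: rooted trees: the upper end of an edge; two edges
-/

set_option autoImplicit false

namespace Pool.Agent.helper62.Brd

open SimpleGraph

variable {V : Type*} [Finite V]

open Classical in
/-- The end of the edge `e` which is farther from `o` in `T` (some end, if both are at the same
distance). -/
noncomputable def top (T : SimpleGraph V) (o : V) (e : Sym2 V) : V :=
  if T.dist o e.out.2 ≤ T.dist o e.out.1 then e.out.1 else e.out.2

/-- PROOF. `e = s(e.out.1, e.out.2)`; the distances of the two ends from `o` differ by exactly one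
(`IsTree.dist_ne_of_adj`, `Adj.diff_dist_adj` or `IsTree.dist_eq_dist_add_one_of_adj`). -/
theorem top_spec {T : SimpleGraph V} (hT : T.IsTree) (o : V) {e : Sym2 V} (he : e ∈ T.edgeSet) :
    ∃ w, e = s(top T o e, w) ∧ T.dist o (top T o e) = T.dist o w + 1 := by
  have h1 : s(e.out.1, e.out.2) = e := Quot.out_eq e
  have hadj : T.Adj e.out.1 e.out.2 := by
    rw [← SimpleGraph.mem_edgeSet, h1]
    exact he
  have h2 := hT.dist_eq_dist_add_one_of_adj o hadj
  unfold top
  by_cases hle : T.dist o e.out.2 ≤ T.dist o e.out.1
  · rw [if_pos hle]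
    refine ⟨e.out.2, h1.symm, ?_⟩
    omega
  · rw [if_neg hle]
    refine ⟨e.out.1, ?_, ?_⟩
    · rw [Sym2.eq_swap]
      exact h1.symm
    · omega

/-- A vertex has at most one neighbour nearer to `o`. -/
private theorem Root_unique_down {T : SimpleGraph V} (hT : T.IsTree) (o : V) {v w w' : V}
    (hw : T.Adj w v) (hw' : T.Adj w' v) (h : T.dist o v = T.dist o w + 1)
    (h' : T.dist o v = T.dist o w' + 1) : w = w' := by
  obtain ⟨p, _, hp⟩ := hT.connected.exists_path_of_dist o w
  obtain ⟨q, _, hq⟩ := hT.connected.exists_path_of_dist o w'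
  have hp' : (p.concat hw).IsPath := by
    apply Walk.isPath_of_length_eq_dist
    rw [Walk.length_concat, hp, h]
  have hq' : (q.concat hw').IsPath := by
    apply Walk.isPath_of_length_eq_dist
    rw [Walk.length_concat, hq, h']
  have heq : p.concat hw = q.concat hw' := (hT.existsUnique_path o v).unique hp' hq'
  obtain ⟨hv, _⟩ := Walk.concat_inj heq
  exact hv

/-- A vertex different from `o` has a neighbour nearer to `o`. -/
private theorem Root_down {T : SimpleGraph V} (hT : T.IsTree) (o : V) {a : V} (ha : a ≠ o) :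
    ∃ b, T.Adj a b ∧ T.dist o a = T.dist o b + 1 := by
  obtain ⟨p, hp⟩ := hT.connected.exists_walk_length_eq_dist a o
  cases p with
  | nil => exact absurd rfl ha
  | @cons _ b _ hab q =>
    refine ⟨b, hab, ?_⟩
    have h1 := hT.dist_eq_dist_add_one_of_adj o hab
    have h2 : T.dist b o ≤ q.length := dist_le q
    rw [Walk.length_cons] at hp
    rw [dist_comm] at hp h2
    omega

/-- PROOF. Let `T.dist o v = T.dist o w + 1`, `T.Adj v w` and `T.Adj v w'` with
`T.dist o v = T.dist o w' + 1`. Geodesics from `o` to `w`, `w'` prolonged by `v` are two paths from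
`o` to `v`, hence equal, so `w = w'` (`IsAcyclic.path_unique`, or `IsTree.existsUnique_path`). -/
theorem top_injOn {T : SimpleGraph V} (hT : T.IsTree) (o : V) :
    Set.InjOn (top T o) T.edgeSet := by
  intro e he f hf hef
  obtain ⟨w, h1, h2⟩ := top_spec hT o he
  obtain ⟨w', h1', h2'⟩ := top_spec hT o hf
  rw [← hef] at h1' h2'
  have ha : T.Adj w (top T o e) := by
    have := he
    rw [h1, SimpleGraph.mem_edgeSet] at this
    exact this.symm
  have ha' : T.Adj w' (top T o e) := by
    have := hf
    rw [h1', SimpleGraph.mem_edgeSet] at this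
    exact this.symm
  have hww := Root_unique_down hT o ha ha' h2 h2'
  rw [h1, h1', hww]

/-- PROOF. Let `e = s(v, w)`, `v = top T o e`. A geodesic of `T` from `a` to `o` has all its
vertices, except `a` itself, at distance less than `T.dist o a ≤ T.dist o v` from `o`, so it does
not contain `v` (as `a ≠ v`), hence not the edge `e`: `a` is joined to `o` in `T - e`. In the same
way `w` is joined to `o` in `T - e`. So if `v` were joined to `a` in `T - e`, it would be joined to
`w`, against `not_reach`. -/
theorem top_sep {T : SimpleGraph V} (hT : T.IsTree) (o : V) {e : Sym2 V} (he : e ∈ T.edgeSet)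
    {a : V} (ha : a ≠ top T o e) (hda : T.dist o a ≤ T.dist o (top T o e)) :
    ¬ (T.deleteEdges {e}).Reachable (top T o e) a := by
  obtain ⟨w, h1, h2⟩ := top_spec hT o he
  generalize top T o e = v at h1 h2 ha hda ⊢
  subst h1
  have hvw : T.Adj v w := he
  have key : ∀ n : ℕ, ∀ a : V, T.dist o a = n → a ≠ v → T.dist o a ≤ T.dist o v →
      (T.deleteEdges {s(v, w)}).Reachable a o := by
    intro n
    induction n with
    | zero =>
      intro a h0 _ _
      have : o = a := (hT.connected.dist_eq_zero_iff).1 h0
      rw [this]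
    | succ n ih =>
      intro a hn hav hle
      have hao : a ≠ o := by
        rintro rfl
        rw [dist_self] at hn
        omega
      obtain ⟨b, hab, hb⟩ := Root_down hT o hao
      have hbv : b ≠ v := by
        rintro rfl
        omega
      have hadj : (T.deleteEdges {s(v, w)}).Adj a b := by
        rw [deleteEdges_adj]
        refine ⟨hab, ?_⟩
        intro hmem
        rw [Set.mem_singleton_iff, Sym2.eq_iff] at hmem
        rcases hmem with ⟨h3, _⟩ | ⟨_, h4⟩
        · exact hav h3
        · exact hbv h4
      exact hadj.reachable.trans (ih b (by omega) hbv (by omega))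
  intro hreach
  have hwv : w ≠ v := hvw.ne'
  have hra := key _ a rfl ha hda
  have hrw := key _ w rfl hwv (by omega)
  exact not_reach hT hvw ((hreach.trans hra).trans hrw.symm)

/-- If the edge `e` does not separate `x` from `y`, one end of `e` is separated by `e` from both. -/
private theorem Root_side {T : SimpleGraph V} (hT : T.IsTree) {e : Sym2 V} (he : e ∈ T.edgeSet)
    {x y : V} (hxy : (T.deleteEdges {e}).Reachable x y) :
    ∃ a b, e = s(a, b) ∧ ¬ (T.deleteEdges {e}).Reachable a x ∧
      ¬ (T.deleteEdges {e}).Reachable a y := by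
  induction e with
  | h u v =>
  have huv : T.Adj u v := he
  have hn := not_reach hT huv
  rcases reach_or hT huv x with hx | hx
  · refine ⟨v, u, Sym2.eq_swap, fun h => hn (h.trans hx).symm, fun h => hn ?_⟩
    exact ((h.trans hxy.symm).trans hx).symm
  · refine ⟨u, v, rfl, fun h => hn (h.trans hx), fun h => hn ?_⟩
    exact (h.trans hxy.symm).trans hx

/-- Two different edges `ab`, `cd` of a tree, suitably written, so that `ab` separates `a` from
`c`, `d` and `cd` separates `d` from `a`, `b`.
PROOF. In `T - ab` the vertices `c`, `d` are joined (by the edge `cd`, which is different from `ab`),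
and both are joined to `a` or to `b` (`reach_or`), not to both (`not_reach`); exchange `a` and `b` if
necessary so that they are not joined to `a`. In the same way `a`, `b` are joined in `T - cd`;
exchange `c` and `d` if necessary. -/
theorem edge_pair {T : SimpleGraph V} (hT : T.IsTree) {e f : Sym2 V} (he : e ∈ T.edgeSet)
    (hf : f ∈ T.edgeSet) (hne : e ≠ f) :
    ∃ a b c d, e = s(a, b) ∧ f = s(c, d) ∧
      ¬ (T.deleteEdges {e}).Reachable a c ∧ ¬ (T.deleteEdges {e}).Reachable a d ∧
      ¬ (T.deleteEdges {f}).Reachable a d ∧ ¬ (T.deleteEdges {f}).Reachable b d := by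
  have key : ∀ {e f : Sym2 V}, f ∈ T.edgeSet → e ≠ f → ∀ x y, f = s(x, y) →
      (T.deleteEdges {e}).Reachable x y := by
    intro e f hf hne x y hfxy
    subst hfxy
    have hadj : T.Adj x y := hf
    refine SimpleGraph.Adj.reachable ?_
    rw [SimpleGraph.deleteEdges_adj]
    exact ⟨hadj, fun h => hne (Set.mem_singleton_iff.mp h).symm⟩
  obtain ⟨x, y, hfxy⟩ : ∃ x y, f = s(x, y) := by
    induction f with
    | h x y => exact ⟨x, y, rfl⟩
  obtain ⟨a, b, heab, hax, hay⟩ := Root_side hT he (key hf hne x y hfxy)
  obtain ⟨d, c, hfdc, hda, hdb⟩ := Root_side hT hf (key he hne.symm a b heab)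
  refine ⟨a, b, c, d, heab, hfdc.trans Sym2.eq_swap, ?_, ?_, fun h => hda h.symm,
    fun h => hdb h.symm⟩
  · rcases Sym2.eq_iff.mp (hfxy.symm.trans hfdc) with ⟨_, h2⟩ | ⟨h1, _⟩
    · exact h2 ▸ hay
    · exact h1 ▸ hax
  · rcases Sym2.eq_iff.mp (hfxy.symm.trans hfdc) with ⟨h1, _⟩ | ⟨_, h2⟩
    · exact h1 ▸ hax
    · exact h2 ▸ hay

end Pool.Agent.helper62.Brd
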