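import Pool.Agent.helper62.Brd.Defs
import Pool.Agent.helper62.Brd.Root

/-!
# BRD-3: minimum spanning trees
-/

set_option autoImplicit false

namespace Pool.Agent.helper62.Brd

open SimpleGraph Pool.Agent.helper79.Mst

variable {V : Type} [Fintype V]

/-- PROOF. There are finitely many simple graphs on `V`, and a spanning tree of the complete graph
exists (`Connected.exists_isTree_le`, `connected_top`). -/
theorem exists_mst [Nonempty V] (x : V → E3) : ∃ T : SimpleGraph V, IsMST x T := by
  have hfin : {T : SimpleGraph V | T.IsTree}.Finite := Set.toFinite _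
  have hne : {T : SimpleGraph V | T.IsTree}.Nonempty := by
    obtain ⟨T, -, hT⟩ := (SimpleGraph.connected_top (V := V)).exists_isTree_le
    exact ⟨T, hT⟩
  obtain ⟨T, hT, hmin⟩ := Set.exists_min_image _ (fun T => len x T) hfin hne
  exact ⟨T, hT, fun T' hT' => hmin T' hT'⟩

/-- PROOF. `exchange_isTree`, `exchange_sum` and the minimality of `T`. -/
theorem mst_cut {x : V → E3} {T : SimpleGraph V} (h : IsMST x T) {u v a b : V} (huv : T.Adj u v)
    (hab : ¬ (T.deleteEdges {s(u, v)}).Reachable a b) :
    dist (x u) (x v) ≤ dist (x a) (x b) := by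
  have h1 := h.2 _ (exchange_isTree h.1 huv hab)
  unfold len at h1
  rw [exchange_sum h.1 huv hab (edgeLen x)] at h1
  have h2 : edgeLen x s(u, v) = dist (x u) (x v) := rfl
  have h3 : edgeLen x s(a, b) = dist (x a) (x b) := rfl
  rw [h2, h3] at h1
  linarith

theorem mst_cut' {x : V → E3} {T : SimpleGraph V} (h : IsMST x T) {e : Sym2 V}
    (he : e ∈ T.edgeSet) {a b : V} (hab : ¬ (T.deleteEdges {e}).Reachable a b) :
    edgeLen x e ≤ dist (x a) (x b) := by
  induction e using Sym2.ind with
  | _ u v => exact mst_cut h he hab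

private theorem Mst_edgeLen_nonneg (x : V → E3) (e : Sym2 V) : 0 ≤ edgeLen x e := by
  induction e using Sym2.ind with
  | _ u v => exact dist_nonneg (x := x u) (y := x v)

private theorem Mst_sum_mono (x : V → E3) {G G' : SimpleGraph V} (hle : G' ≤ G) {φ : ℝ → ℝ}
    (h0 : ∀ t, 0 ≤ t → 0 ≤ φ t) :
    ∑ᶠ e ∈ G'.edgeSet, φ (edgeLen x e) ≤ ∑ᶠ e ∈ G.edgeSet, φ (edgeLen x e) := by
  rw [finsum_mem_eq_finite_toFinset_sum _ (Set.toFinite G'.edgeSet),
    finsum_mem_eq_finite_toFinset_sum _ (Set.toFinite G.edgeSet)]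
  apply Finset.sum_le_sum_of_subset_of_nonneg
  · intro e he
    rw [Set.Finite.mem_toFinset] at he ⊢
    exact SimpleGraph.edgeSet_mono hle he
  · intro e _ _
    exact h0 _ (Mst_edgeLen_nonneg x e)

private theorem Mst_tree_eq {T G : SimpleGraph V} (hT : T.IsTree) (hG : G.IsTree)
    (h : T.edgeSet \ G.edgeSet = ∅) : T = G := by
  have hsub : T.edgeSet ⊆ G.edgeSet := Set.sdiff_eq_empty.mp h
  have h1 := (SimpleGraph.isTree_iff_connected_and_card.mp hT).2
  have h2 := (SimpleGraph.isTree_iff_connected_and_card.mp hG).2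
  have h3 : T.edgeSet = G.edgeSet := by
    apply Set.eq_of_subset_of_ncard_le hsub _ (Set.toFinite _)
    have e1 : T.edgeSet.ncard = Nat.card T.edgeSet := rfl
    have e2 : G.edgeSet.ncard = Nat.card G.edgeSet := rfl
    rw [e1, e2]
    omega
  exact SimpleGraph.edgeSet_injective h3

private theorem Mst_trees {x : V → E3} {T : SimpleGraph V} (h : IsMST x T)
    {φ : ℝ → ℝ} (hφ : MonotoneOn φ (Set.Ici 0)) : ∀ (n : ℕ) (G : SimpleGraph V), G.IsTree →
    (T.edgeSet \ G.edgeSet).ncard ≤ n →
    ∑ᶠ e ∈ T.edgeSet, φ (edgeLen x e) ≤ ∑ᶠ e ∈ G.edgeSet, φ (edgeLen x e) := by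
  intro n
  induction n with
  | zero =>
    intro G hG hn
    have h1 : T.edgeSet \ G.edgeSet = ∅ := by
      rw [← Set.ncard_eq_zero (Set.toFinite _)]
      omega
    rw [Mst_tree_eq h.1 hG h1]
  | succ n ih =>
    intro G hG hn
    by_cases h1 : T.edgeSet \ G.edgeSet = ∅
    · rw [Mst_tree_eq h.1 hG h1]
    · obtain ⟨e, he⟩ := Set.nonempty_iff_ne_empty.mpr h1
      induction e using Sym2.ind with
      | _ u v =>
        have huv : T.Adj u v := he.1
        obtain ⟨a, b, hab, hTr, hGr⟩ := exists_exchange h.1 hG huv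
        have hlen := mst_cut h huv hTr
        have hG1 := exchange_isTree hG hab hGr
        have hsum := exchange_sum hG hab hGr (fun e => φ (edgeLen x e))
        have hmono : φ (edgeLen x s(u, v)) ≤ φ (edgeLen x s(a, b)) :=
          hφ (Mst_edgeLen_nonneg x _) (Mst_edgeLen_nonneg x _) hlen
        have habT : s(a, b) ∉ T.edgeSet := by
          intro hmem
          apply hTr
          apply Adj.reachable
          rw [SimpleGraph.deleteEdges_adj]
          refine ⟨hmem, ?_⟩
          rw [Set.mem_singleton_iff]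
          intro heq
          apply he.2
          rw [← heq]
          exact hab
        have hsub : T.edgeSet \ (G.deleteEdges {s(a, b)} ⊔ SimpleGraph.edge u v).edgeSet ⊆
            (T.edgeSet \ G.edgeSet) \ {s(u, v)} := by
          rintro e' ⟨he'T, he'G⟩
          rw [SimpleGraph.edgeSet_sup, SimpleGraph.edgeSet_deleteEdges,
            SimpleGraph.edgeSet_edge_of_ne huv.ne] at he'G
          refine ⟨⟨he'T, fun hG' => he'G ?_⟩, fun heq => he'G (Or.inr heq)⟩
          left
          refine ⟨hG', ?_⟩
          rw [Set.mem_singleton_iff]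
          rintro rfl
          exact habT he'T
        have hcard : (T.edgeSet \
            (G.deleteEdges {s(a, b)} ⊔ SimpleGraph.edge u v).edgeSet).ncard ≤ n := by
          have h2 := Set.ncard_le_ncard hsub (Set.toFinite _)
          have h3 := Set.ncard_sdiff_singleton_lt_of_mem he (Set.toFinite _)
          omega
        have h4 := ih _ hG1 hcard
        linarith

/-- PROOF. First replace `G` by a spanning tree `G' ≤ G` (`Connected.exists_isTree_le`; the terms
are nonnegative). For trees use induction on the number of edges of `T` which are not in `G`. If it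
is `0` then `T ≤ G`, and `T = G` as both have the same number of edges. Otherwise take an edge `uv`
of `T` not in `G` and `a`, `b` from `exists_exchange`; `ab` is not an edge of `T` (if it were, it
would be `uv`, as `a`, `b` are not joined in `T - uv`, but `uv` is not in `G`). Put
`G₁ = G - ab + uv` (a tree by `exchange_isTree`). By `mst_cut`,
`dist (x u) (x v) ≤ dist (x a) (x b)`, so by `exchange_sum` the sum for `G₁` is at most the sum for
`G`, and `T` has fewer edges outside `G₁`. -/
theorem mst_sum_le {x : V → E3} {T : SimpleGraph V} (h : IsMST x T) {G : SimpleGraph V}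
    (hG : G.Connected) {φ : ℝ → ℝ} (hφ : MonotoneOn φ (Set.Ici 0)) (h0 : ∀ t, 0 ≤ t → 0 ≤ φ t) :
    ∑ᶠ e ∈ T.edgeSet, φ (edgeLen x e) ≤ ∑ᶠ e ∈ G.edgeSet, φ (edgeLen x e) := by
  obtain ⟨G', hle, hG'⟩ := hG.exists_isTree_le
  exact (Mst_trees h hφ _ G' hG' le_rfl).trans (Mst_sum_mono x hle h0)

end Pool.Agent.helper62.Brd
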