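import Mathlib

/-!
# BRD-1: exchange of edges in trees

`T - e` is `T.deleteEdges {e}`, `T - e + ab` is `T.deleteEdges {e} ⊔ SimpleGraph.edge a b`.
-/

set_option autoImplicit false

namespace Pool.Agent.helper62.Brd

open SimpleGraph

variable {V : Type*} [Finite V]

/-- `isAcyclic_iff_forall_adj_isBridge`, definition of a bridge. -/
theorem not_reach {T : SimpleGraph V} (hT : T.IsTree) {u v : V} (huv : T.Adj u v) :
    ¬ (T.deleteEdges {s(u, v)}).Reachable u v :=
  isBridge_iff.1 (isAcyclic_iff_forall_adj_isBridge.1 hT.isAcyclic huv)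

theorem Tree_reach_or_walk {T : SimpleGraph V} (u v : V) {w z : V} (p : T.Walk w z) (hz : z = u) :
    (T.deleteEdges {s(u, v)}).Reachable w u ∨ (T.deleteEdges {s(u, v)}).Reachable w v := by
  induction p with
  | nil => exact Or.inl (hz ▸ Reachable.refl _)
  | @cons a b c hab q ih =>
    by_cases he : s(a, b) = s(u, v)
    · rcases Sym2.eq_iff.1 he with ⟨h1, -⟩ | ⟨h1, -⟩
      · exact Or.inl (h1 ▸ Reachable.refl _)
      · exact Or.inr (h1 ▸ Reachable.refl _)
    · have hadj : (T.deleteEdges {s(u, v)}).Adj a b := by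
        rw [deleteEdges_adj]
        exact ⟨hab, by simpa using he⟩
      rcases ih hz with h | h
      · exact Or.inl (hadj.reachable.trans h)
      · exact Or.inr (hadj.reachable.trans h)

/-- After deleting the edge `uv` every vertex is still joined to `u` or to `v`.
PROOF. Induction on a walk of `T` from `w` to `u`: if a step `(a, b)` is not the edge `uv`, it is
an edge of `T - uv`; if it is the edge `uv` then `a = u` or `a = v`. -/
theorem reach_or {T : SimpleGraph V} (hT : T.IsTree) {u v : V} (huv : T.Adj u v) (w : V) :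
    (T.deleteEdges {s(u, v)}).Reachable w u ∨ (T.deleteEdges {s(u, v)}).Reachable w v := by
  obtain ⟨p⟩ := hT.connected.preconnected w u
  exact Tree_reach_or_walk u v p rfl

/-- PROOF. `T - uv` is acyclic and `a`, `b` are not joined in it, so `T - uv + ab` is acyclic
(`isAcyclic_add_edge_iff_of_not_reachable` or `IsAcyclic.sup_edge_of_not_reachable`). It is
connected: by `reach_or` (and `not_reach`) `a` and `b` are joined in `T - uv` to different ends of
`uv`, so `u` and `v` are joined in `T - uv + ab`, and every vertex is joined to `u` or `v`. -/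
theorem exchange_isTree {T : SimpleGraph V} (hT : T.IsTree) {u v a b : V} (huv : T.Adj u v)
    (hab : ¬ (T.deleteEdges {s(u, v)}).Reachable a b) :
    (T.deleteEdges {s(u, v)} ⊔ SimpleGraph.edge a b).IsTree := by
  have hle : T.deleteEdges {s(u, v)} ≤ T.deleteEdges {s(u, v)} ⊔ SimpleGraph.edge a b := le_sup_left
  have hne : a ≠ b := fun h => hab (h ▸ Reachable.refl _)
  have hadj : (T.deleteEdges {s(u, v)} ⊔ SimpleGraph.edge a b).Adj a b := by
    rw [sup_adj]
    exact Or.inr ((edge_adj _ _ _ _).2 ⟨Or.inl ⟨rfl, rfl⟩, hne⟩)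
  have hacyc : (T.deleteEdges {s(u, v)} ⊔ SimpleGraph.edge a b).IsAcyclic :=
    IsAcyclic.sup_edge_of_not_reachable hab (hT.isAcyclic.anti (deleteEdges_le _))
  have huv' : (T.deleteEdges {s(u, v)} ⊔ SimpleGraph.edge a b).Reachable u v := by
    rcases reach_or hT huv a with h1 | h1 <;> rcases reach_or hT huv b with h2 | h2
    · exact absurd (h1.trans h2.symm) hab
    · exact (h1.symm.mono hle).trans (hadj.reachable.trans (h2.mono hle))
    · exact (h2.symm.mono hle).trans (hadj.symm.reachable.trans (h1.mono hle))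
    · exact absurd (h1.trans h2.symm) hab
  have hall : ∀ w, (T.deleteEdges {s(u, v)} ⊔ SimpleGraph.edge a b).Reachable w u := by
    intro w
    rcases reach_or hT huv w with h | h
    · exact h.mono hle
    · exact (h.mono hle).trans huv'.symm
  refine ⟨?_, hacyc⟩
  have hne : Nonempty V := ⟨u⟩
  exact ⟨fun w z => (hall w).trans (hall z).symm⟩

/-- PROOF. The edge set of the new tree is `(T.edgeSet \ {s(u, v)}) ∪ {s(a, b)}`, and `s(a, b)` is
not in `T.edgeSet \ {s(u, v)}` (otherwise `a`, `b` would be joined in `T - uv`); `a ≠ b`. -/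
theorem exchange_sum {T : SimpleGraph V} (hT : T.IsTree) {u v a b : V} (huv : T.Adj u v)
    (hab : ¬ (T.deleteEdges {s(u, v)}).Reachable a b) (f : Sym2 V → ℝ) :
    ∑ᶠ e ∈ (T.deleteEdges {s(u, v)} ⊔ SimpleGraph.edge a b).edgeSet, f e =
      (∑ᶠ e ∈ T.edgeSet, f e) - f s(u, v) + f s(a, b) := by
  have hne : a ≠ b := fun h => hab (h ▸ Reachable.refl _)
  have h1 : (T.deleteEdges {s(u, v)} ⊔ SimpleGraph.edge a b).edgeSet =
      insert s(a, b) (T.deleteEdges {s(u, v)}).edgeSet := by
    rw [edgeSet_sup, edgeSet_edge_of_ne hne, Set.union_comm, Set.singleton_union]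
  have h2 : s(a, b) ∉ (T.deleteEdges {s(u, v)}).edgeSet := fun h => hab
    ((mem_edgeSet _).1 h).reachable
  have h3 : T.edgeSet = insert s(u, v) (T.deleteEdges {s(u, v)}).edgeSet := by
    rw [edgeSet_deleteEdges, Set.insert_sdiff_singleton, Set.insert_eq_of_mem]
    exact (mem_edgeSet _).2 huv
  have h4 : s(u, v) ∉ (T.deleteEdges {s(u, v)}).edgeSet := by
    rw [edgeSet_deleteEdges]
    simp
  rw [h1, finsum_mem_insert _ h2 (Set.toFinite _), h3, finsum_mem_insert _ h4 (Set.toFinite _)]
  ring

/-- PROOF. Let `p` be the path of the tree `G` from `u` to `v`. Since `u`, `v` are not joined in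
`T - uv`, there is a step `(a, b)` of `p` with `a` joined to `u` and `b` not joined to `u` in
`T - uv` (first vertex of `p` not joined to `u`); so `a`, `b` are not joined in `T - uv`. As the
path from `u` to `v` in `G` is unique (`IsAcyclic.path_unique`) and contains the edge `ab`, there is
no path, hence no walk, from `u` to `v` in `G - ab`. -/
theorem exists_exchange {T G : SimpleGraph V} (hT : T.IsTree) (hG : G.IsTree) {u v : V}
    (huv : T.Adj u v) :
    ∃ a b, G.Adj a b ∧ ¬ (T.deleteEdges {s(u, v)}).Reachable a b ∧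
      ¬ (G.deleteEdges {s(a, b)}).Reachable u v := by
  classical
  obtain ⟨p0⟩ := hG.connected.preconnected u v
  have hp : (p0.toPath : G.Walk u v).IsPath := p0.toPath.2
  obtain ⟨d, hd, hd1, hd2⟩ := (p0.toPath : G.Walk u v).exists_boundary_dart
    {w | (T.deleteEdges {s(u, v)}).Reachable u w} (Reachable.refl u) (not_reach hT huv)
  refine ⟨d.fst, d.snd, d.adj, fun h => hd2 (hd1.trans h), ?_⟩
  rintro ⟨q⟩
  have hle : G.deleteEdges {s(d.fst, d.snd)} ≤ G := deleteEdges_le _
  have hq : ((q.toPath : (G.deleteEdges {s(d.fst, d.snd)}).Walk u v).mapLe hle).IsPath :=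
    Walk.IsPath.mapLe hle q.toPath.2
  have heq := congrArg Subtype.val (hG.isAcyclic.path_unique p0.toPath ⟨_, hq⟩)
  have he : s(d.fst, d.snd) ∈ (p0.toPath : G.Walk u v).edges := by
    exact List.mem_map_of_mem (f := Dart.edge) hd
  rw [heq] at he
  simp only [Walk.edges_mapLe_eq_edges] at he
  have h1 := Walk.edges_subset_edgeSet _ he
  rw [edgeSet_deleteEdges] at h1
  exact h1.2 rfl

end Pool.Agent.helper62.Brd
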