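import Pool.Agent.helper62.Brd.Mst

/-!
# BRD-4: energy of an oriented tree and sum of powers; spanning subgraphs from stars
-/

set_option autoImplicit false

namespace Pool.Agent.helper62.Brd

open SimpleGraph Pool.Agent.helper79.Mst

variable {V : Type} [Fintype V]

/-- PROOF. For every `u` which has an out-neighbour choose an out-neighbour `m u` with
`dist (x u) (x (m u))` maximal; the supremum in `energy` is `dist (x u) (x (m u)) ^ α`
(`Real.iSup`, finite type), and `0` for the other `u`. The map `u ↦ s(u, m u)` from these `u` to the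
edges is injective: if `s(u, m u) = s(u', m u')` and `u ≠ u'` then `u' = m u` and `u = m u'`, so
`T.dist s u' = T.dist s u + 1` and `T.dist s u = T.dist s u' + 1`. The other edges contribute
nonnegative terms. -/
theorem energy_le_sumPow (α : ℝ) (x : V → E3) (s : V) (T : SimpleGraph V) :
    energy α x s T ≤ sumPow α x T := by
  classical
  have hch : ∀ u, ∃ m : V, (∃ v, OutNbr T s u v) → (OutNbr T s u m ∧
      (⨆ v : {v : V // OutNbr T s u v}, dist (x u) (x v.1) ^ α) = dist (x u) (x m) ^ α) := by
    intro u
    by_cases h : ∃ v, OutNbr T s u v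
    · obtain ⟨v, hv⟩ := h
      have : Nonempty {v : V // OutNbr T s u v} := ⟨⟨v, hv⟩⟩
      obtain ⟨m, hm⟩ := exists_eq_ciSup_of_finite
        (f := fun v : {v : V // OutNbr T s u v} => dist (x u) (x v.1) ^ α)
      exact ⟨m.1, fun _ => ⟨m.2, hm.symm⟩⟩
    · exact ⟨u, fun h' => (h h').elim⟩
  choose m hm using hch
  set S : Finset V := Finset.univ.filter fun u => ∃ v, OutNbr T s u v with hS
  have hmem : ∀ u ∈ S, ∃ v, OutNbr T s u v := fun u hu => (Finset.mem_filter.1 hu).2
  have h1 : energy α x s T = ∑ u ∈ S, edgeLen x s(u, m u) ^ α := by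
    unfold energy
    rw [← Finset.sum_subset (Finset.subset_univ S)]
    · refine Finset.sum_congr rfl fun u hu => ?_
      rw [(hm u (hmem u hu)).2]
      rfl
    · intro u _ hu
      have : IsEmpty {v : V // OutNbr T s u v} := by
        refine ⟨fun v => hu ?_⟩
        rw [hS, Finset.mem_filter]
        exact ⟨Finset.mem_univ _, v.1, v.2⟩
      exact Real.iSup_of_isEmpty _
  have hinj : Set.InjOn (fun u => s(u, m u)) (S : Set V) := by
    intro u hu w hw he
    rcases Sym2.eq_iff.1 he with ⟨h2, _⟩ | ⟨h2, h3⟩
    · exact h2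
    · exfalso
      have h4 := (hm u (hmem u hu)).1.2
      have h5 := (hm w (hmem w hw)).1.2
      rw [h3] at h4
      rw [← h2] at h5
      omega
  have hfin : T.edgeSet.Finite := Set.toFinite _
  rw [h1, ← Finset.sum_image (f := fun e => edgeLen x e ^ α) hinj]
  unfold sumPow
  rw [finsum_mem_eq_finite_toFinset_sum _ hfin]
  refine Finset.sum_le_sum_of_subset_of_nonneg ?_ fun e _ _ => ?_
  · intro e he
    obtain ⟨u, hu, rfl⟩ := Finset.mem_image.1 he
    rw [Set.Finite.mem_toFinset, SimpleGraph.mem_edgeSet]
    exact (hm u (hmem u hu)).1.1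
  · refine Real.rpow_nonneg ?_ _
    induction e using Sym2.ind with
    | _ a b => exact (dist_nonneg : 0 ≤ dist (x a) (x b))

/-- The largest distance from `u` to an out-neighbour. -/
noncomputable def rad (x : V → E3) (s : V) (T : SimpleGraph V) (u : V) : ℝ :=
  ⨆ v : {v : V // OutNbr T s u v}, dist (x u) (x v.1)

theorem dist_le_rad (x : V → E3) (s : V) (T : SimpleGraph V) {u v : V} (h : OutNbr T s u v) :
    dist (x u) (x v) ≤ rad x s T u :=
  le_ciSup (f := fun v : {v : V // OutNbr T s u v} => dist (x u) (x v.1))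
    (Set.finite_range _).bddAbove ⟨v, h⟩

/-- PROOF. `t ↦ t ^ α` is monotone for `t ≥ 0`; both sides are `0` if there is no out-neighbour
(`0 ^ α = 0` as `α ≠ 0`), and otherwise the maximum is attained at the same out-neighbour. -/
theorem energy_eq_rad {α : ℝ} (hα : 0 < α) (x : V → E3) (s : V) (T : SimpleGraph V) :
    energy α x s T = ∑ u, rad x s T u ^ α := by
  unfold energy
  refine Finset.sum_congr rfl fun u _ => ?_
  rcases isEmpty_or_nonempty {v : V // OutNbr T s u v} with hE | hN
  · rw [rad, Real.iSup_of_isEmpty, Real.iSup_of_isEmpty, Real.zero_rpow hα.ne']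
  · obtain ⟨m, hm⟩ := exists_eq_ciSup_of_finite
      (f := fun v : {v : V // OutNbr T s u v} => dist (x u) (x v.1))
    have hr : rad x s T u = dist (x u) (x m.1) := hm.symm
    refine le_antisymm (ciSup_le fun v => ?_) ?_
    · exact Real.rpow_le_rpow dist_nonneg (dist_le_rad x s T v.2) hα.le
    · rw [hr]
      exact le_term α x s T m.2

end Pool.Agent.helper62.Brd
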