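import Pool.Agent.helper62.Brd.Up1

/-!
# BRD-5: a minimum spanning tree against the union of minimum spanning trees of stars
-/

set_option autoImplicit false

namespace Pool.Agent.helper62.Brd

open SimpleGraph Pool.Agent.helper79.Mst

private theorem Up2_edgeLen {W : Type} (x y : W → E3) (c : ℝ)
    (h : ∀ v w, dist (x v) (x w) = c * dist (y v) (y w)) (e : Sym2 W) :
    edgeLen x e = c * edgeLen y e := by
  induction e using Sym2.ind with
  | _ a b => exact h a b

private theorem Up2_nonneg {W : Type} (y : W → E3) (e : Sym2 W) : 0 ≤ edgeLen y e := by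
  induction e using Sym2.ind with
  | _ a b => exact (_root_.dist_nonneg : 0 ≤ dist (y a) (y b))

private theorem Up2_sumPow {W : Type} [Finite W] (α : ℝ) (x y : W → E3) {c : ℝ} (hc : 0 < c)
    (h : ∀ v w, dist (x v) (x w) = c * dist (y v) (y w)) (T : SimpleGraph W) :
    sumPow α x T = sumPow α y T * c ^ α := by
  unfold sumPow
  rw [finsum_mem_mul]
  apply finsum_mem_congr rfl
  intro e _
  rw [Up2_edgeLen x y c h e, Real.mul_rpow hc.le (Up2_nonneg y e), mul_comm]

/-- A star: the points `x v`, `v ∈ A`, are at distance at most `r` from `x u`, `u ∈ A`. Then some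
spanning tree of `A` has a sum of powers at most `S * r ^ α`.
PROOF. Apply the definition of `sigma` to the type `A` with the points `r⁻¹ • (x v - x u)` and the
centre `u` (`exists_mst` gives a minimum spanning tree); the edge lengths are those of `x` divided
by `r`, so the sum of the powers is divided by `r ^ α`. -/
theorem star_tree {α S : ℝ} (hS : sigma α ≤ (S : EReal)) {V : Type}
    [Fintype V] {x : V → E3} (hx : Function.Injective x) (A : Set V) (u : A) {r : ℝ} (hr : 0 < r)
    (hA : ∀ v : A, dist (x u) (x v) ≤ r) :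
    ∃ T : SimpleGraph A, T.IsTree ∧ sumPow α (fun v : A => x v) T ≤ S * r ^ α := by
  classical
  haveI : Fintype A := Fintype.ofFinite A
  haveI : Nonempty A := ⟨u⟩
  obtain ⟨T, hT⟩ := exists_mst (fun v : A => r⁻¹ • (x v - x u))
  refine ⟨T, hT.1, ?_⟩
  have hball : InBall (fun v : A => r⁻¹ • (x v - x u)) u := by
    refine ⟨?_, ?_, ?_⟩
    · intro v w hvw
      have h1 : r⁻¹ • (x v - x u) = r⁻¹ • (x w - x u) := hvw
      have h2 := smul_right_injective E3 (inv_ne_zero hr.ne') h1
      exact Subtype.ext (hx (sub_left_injective h2))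
    · show r⁻¹ • (x u - x u) = 0
      rw [sub_self, smul_zero]
    · intro v
      show ‖r⁻¹ • (x v - x u)‖ ≤ 1
      rw [norm_smul, norm_inv, Real.norm_of_nonneg hr.le, ← dist_eq_norm, _root_.dist_comm,
        inv_mul_le_iff₀ hr, mul_one]
      exact hA v
  have h1 : ((sumPow α (fun v : A => r⁻¹ • (x v - x u)) T : ℝ) : EReal) ≤ (S : EReal) := by
    refine le_trans ?_ hS
    unfold sigma
    exact le_sSup ⟨A, inferInstance, _, u, T, hball, hT, rfl⟩
  have h2 := EReal.coe_le_coe_iff.1 h1
  rw [Up2_sumPow α (fun v : A => x v) (fun v : A => r⁻¹ • (x v - x u)) hr ?_ T]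
  · exact mul_le_mul_of_nonneg_right h2 (Real.rpow_nonneg hr.le α)
  · intro v w
    rw [dist_eq_norm, dist_eq_norm, ← smul_sub, norm_smul, norm_inv, Real.norm_of_nonneg hr.le,
      mul_inv_cancel_left₀ hr.ne', sub_sub_sub_cancel_right]

private theorem Up2_map_sum {V : Type} (α : ℝ) (x : V → E3) (A : Set V) (T : SimpleGraph A) :
    ∑ᶠ e ∈ (T.map (Function.Embedding.subtype fun v => v ∈ A)).edgeSet, edgeLen x e ^ α =
      sumPow α (fun v : A => x v) T := by
  unfold sumPow
  rw [SimpleGraph.edgeSet_map, finsum_mem_image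
    (Function.Embedding.sym2Map (Function.Embedding.subtype fun v => v ∈ A)).injective.injOn]
  apply finsum_mem_congr rfl
  intro e _
  induction e using Sym2.ind with
  | _ a b => rfl

private theorem Up2_sum_iSup {V : Type} [Fintype V] (G : V → SimpleGraph V) {w : Sym2 V → ℝ}
    (hw : ∀ e, 0 ≤ w e) :
    ∑ᶠ e ∈ (⨆ u, G u).edgeSet, w e ≤ ∑ u, ∑ᶠ e ∈ (G u).edgeSet, w e := by
  classical
  have h : ∀ H : SimpleGraph V, ∑ᶠ e ∈ H.edgeSet, w e = ∑ e, H.edgeSet.indicator w e := by
    intro H
    rw [finsum_mem_def, finsum_eq_sum_of_fintype]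
  rw [h]
  simp only [h]
  rw [Finset.sum_comm]
  refine Finset.sum_le_sum fun e _ => ?_
  by_cases he : e ∈ (⨆ u, G u).edgeSet
  · have h1 : ∃ u, e ∈ (G u).edgeSet := by
      induction e using Sym2.ind with
      | _ a b =>
        rw [SimpleGraph.mem_edgeSet, SimpleGraph.iSup_adj] at he
        exact he
    obtain ⟨u, hu⟩ := h1
    rw [Set.indicator_of_mem he]
    calc w e = (G u).edgeSet.indicator w e := (Set.indicator_of_mem hu w).symm
      _ ≤ ∑ u, (G u).edgeSet.indicator w e := by
        refine Finset.single_le_sum (f := fun u => (G u).edgeSet.indicator w e) (fun v _ => ?_)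
          (Finset.mem_univ u)
        exact Set.indicator_nonneg (fun e _ => hw e) e
  · rw [Set.indicator_of_notMem he]
    exact Finset.sum_nonneg fun v _ => Set.indicator_nonneg (fun e _ => hw e) e

private theorem Up2_star {α S : ℝ} (hα : 0 < α) (hS : sigma α ≤ (S : EReal)) {V : Type}
    [Fintype V] {x : V → E3} (hx : Function.Injective x) (s : V) (T' : SimpleGraph V) (u : V) :
    ∃ G : SimpleGraph V, (∀ v, OutNbr T' s u v → G.Reachable u v) ∧
      ∑ᶠ e ∈ G.edgeSet, edgeLen x e ^ α ≤ S * rad x s T' u ^ α := by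
  by_cases hN : ∃ v, OutNbr T' s u v
  · obtain ⟨v₀, hv₀⟩ := hN
    have hr : 0 < rad x s T' u := by
      refine lt_of_lt_of_le ?_ (dist_le_rad x s T' hv₀)
      exact _root_.dist_pos.2 fun h => hv₀.1.ne (hx h)
    let A : Set V := {v | v = u ∨ OutNbr T' s u v}
    obtain ⟨T₁, hT₁, hsum⟩ := star_tree hS hx A ⟨u, Or.inl rfl⟩ hr (by
      rintro ⟨v, rfl | hv⟩
      · rw [_root_.dist_self]
        exact hr.le
      · exact dist_le_rad x s T' hv)
    refine ⟨T₁.map (Function.Embedding.subtype fun v => v ∈ A), fun v hv => ?_, ?_⟩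
    · have h1 : T₁.Reachable ⟨u, Or.inl rfl⟩ ⟨v, Or.inr hv⟩ := hT₁.connected.preconnected _ _
      exact h1.map (SimpleGraph.Embedding.map (Function.Embedding.subtype fun v => v ∈ A)
        T₁).toHom
    · rw [Up2_map_sum]
      exact hsum
  · refine ⟨⊥, fun v hv => (hN ⟨v, hv⟩).elim, ?_⟩
    have hE : IsEmpty {v : V // OutNbr T' s u v} := ⟨fun v => hN ⟨v.1, v.2⟩⟩
    rw [rad, Real.iSup_of_isEmpty, Real.zero_rpow hα.ne', mul_zero, SimpleGraph.edgeSet_bot,
      finsum_mem_empty]

/-- PROOF. For `u : V` let `A u = {u} ∪ {v | OutNbr T' s u v}` and `r u = rad x s T' u`. If `u`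
has an out-neighbour then `r u > 0`, take the tree of `star_tree` and let `G u` be its image in `V`
(`SimpleGraph.map` with the embedding `Subtype`), otherwise `G u = ⊥`. Let `G = ⨆ u, G u`. `G` is
connected: if `T'.Adj u v` then `v` is an out-neighbour of `u` or `u` of `v` (in the tree `T'` the
distances from `s` differ by exactly one), so `u`, `v` are in a common `A w` and are joined in `G w`.
By `mst_sum_le` with `φ t = t ^ α`,
`sumPow α x T ≤ ∑ᶠ e ∈ G.edgeSet, edgeLen x e ^ α ≤ ∑ u, ∑ᶠ e ∈ (G u).edgeSet, edgeLen x e ^ α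
≤ ∑ u, S * r u ^ α = S * energy α x s T'` (`energy_eq_rad`; for `u` without out-neighbours both
`r u ^ α = 0` and the sum over `G u` vanish). -/
theorem sumPow_le_mul {α S : ℝ} (hα : 0 < α) (hS : sigma α ≤ (S : EReal)) {V : Type} [Fintype V]
    {x : V → E3} (hx : Function.Injective x) (s : V) {T T' : SimpleGraph V} (hT : IsMST x T)
    (hT' : T'.IsTree) : sumPow α x T ≤ S * energy α x s T' := by
  choose G hG using Up2_star hα hS hx s T'
  have hadj : ∀ a b, T'.Adj a b → (⨆ u, G u).Reachable a b := by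
    intro a b hab
    have h1 := hT'.dist_eq_dist_add_one_of_adj s hab
    rcases h1 with h1 | h1
    · exact (((hG b).1 a ⟨hab.symm, h1⟩).mono (le_iSup G b)).symm
    · exact ((hG a).1 b ⟨hab, h1⟩).mono (le_iSup G a)
  have hconn : (⨆ u, G u).Connected := by
    haveI : Nonempty V := ⟨s⟩
    refine ⟨fun a b => ?_⟩
    obtain ⟨p⟩ := hT'.connected.preconnected a b
    induction p with
    | nil => exact Reachable.refl _
    | cons h _ ih => exact (hadj _ _ h).trans ih
  have h1 := mst_sum_le hT hconn (φ := fun t => t ^ α)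
    (fun a ha b _ hab => Real.rpow_le_rpow ha hab hα.le) (fun t ht => Real.rpow_nonneg ht α)
  have h2 := Up2_sum_iSup G (w := fun e => edgeLen x e ^ α)
    (fun e => Real.rpow_nonneg (Up2_nonneg x e) α)
  have h3 : ∑ u, ∑ᶠ e ∈ (G u).edgeSet, edgeLen x e ^ α ≤ S * energy α x s T' := by
    rw [energy_eq_rad hα, Finset.mul_sum]
    exact Finset.sum_le_sum fun u _ => (hG u).2
  exact (h1.trans h2).trans h3

end Pool.Agent.helper62.Brd
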