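import Pool.Agent.helper62.Brd.Up2

/-!
# BRD-6: `ρ_3 ≤ σ`
-/

set_option autoImplicit false

namespace Pool.Agent.helper62.Brd

open SimpleGraph Pool.Agent.helper79.Mst

/-- PROOF. Let `V, x, s, T` be an instance. `sigma α` is not `⊥` (it is at least `0`: one point,
or any configuration); if `sigma α = ⊤` there is nothing to prove, otherwise `sigma α = S`, `S : ℝ`.
The set in the definition of `opt` is finite (finitely many graphs) and nonempty, so
`opt α x s = energy α x s T'` for some tree `T'`; it is positive by `opt_pos` (with `ε` the smallest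
distance of different points, or the smallest distance from `s`). By `energy_le_sumPow` and
`sumPow_le_mul`, `energy α x s T ≤ S * opt α x s`. -/
theorem rho3_le_sigma {α : ℝ} (hα : 0 < α) : rho3 α ≤ sigma α := by
  classical
  apply sSup_le
  rintro r ⟨V, hV, x, s, T, hcard, hx, hT, rfl⟩
  have hbot : sigma α ≠ ⊥ := by
    intro hb
    obtain ⟨T₀, hT₀⟩ := exists_mst (V := Unit) (fun _ => (0 : E3))
    have hmem : ((sumPow α (fun _ : Unit => (0 : E3)) T₀ : ℝ) : EReal) ≤ sigma α := by
      apply le_sSup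
      exact ⟨Unit, inferInstance, fun _ => 0, (), T₀,
        ⟨fun a b _ => Subsingleton.elim a b, rfl, fun v => by simp⟩, hT₀, rfl⟩
    rw [hb, le_bot_iff] at hmem
    exact EReal.coe_ne_bot _ hmem
  rcases eq_or_ne (sigma α) ⊤ with htop | htop
  · rw [htop]
    exact le_top
  obtain ⟨S, hS⟩ : ∃ S : ℝ, sigma α = (S : EReal) :=
    ⟨(sigma α).toReal, (EReal.coe_toReal htop hbot).symm⟩
  rw [hS, EReal.coe_le_coe_iff]
  -- the optimum is attained
  obtain ⟨T', hT', hopt⟩ : ∃ T' : SimpleGraph V, T'.IsTree ∧ opt α x s = energy α x s T' := by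
    have hfin : {E : ℝ | ∃ T : SimpleGraph V, T.IsTree ∧ E = energy α x s T}.Finite := by
      apply (Set.finite_range (fun T : SimpleGraph V => energy α x s T)).subset
      rintro E ⟨T₁, _, rfl⟩
      exact ⟨T₁, rfl⟩
    have hne : {E : ℝ | ∃ T : SimpleGraph V, T.IsTree ∧ E = energy α x s T}.Nonempty :=
      ⟨_, T, hT.1, rfl⟩
    exact hne.csInf_mem hfin
  haveI : Nonempty V := ⟨s⟩
  obtain ⟨ε, hε0, hε⟩ : ∃ ε : ℝ, 0 < ε ∧ ∀ v, v ≠ s → ε ≤ dist (x s) (x v) := by
    obtain ⟨v₀, hv₀⟩ := Finite.exists_min (fun v : V => if v = s then (1 : ℝ) else dist (x s) (x v))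
    refine ⟨if v₀ = s then (1 : ℝ) else dist (x s) (x v₀), ?_, ?_⟩
    · by_cases h : v₀ = s
      · rw [if_pos h]
        exact one_pos
      · rw [if_neg h]
        exact dist_pos.mpr fun h' => h (hx h').symm
    · intro v hv
      have := hv₀ v
      simp only [if_neg hv] at this
      exact this
  have hpos : 0 < opt α x s := opt_pos hα.le x s hε0 hε hcard
  rw [div_le_iff₀ hpos]
  calc energy α x s T ≤ sumPow α x T := energy_le_sumPow α x s T
    _ ≤ S * energy α x s T' := sumPow_le_mul hα (le_of_eq hS) hx s hT hT'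
    _ = S * opt α x s := by rw [hopt]

end Pool.Agent.helper62.Brd
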